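import Mathlib

/-!
# Project GE: choice of the probabilities, general weights
-/

set_option autoImplicit false

namespace Pool.Agent.Q120.GE

open Finset Filter
open scoped Topology

/-- A contraction with summable errors. -/
theorem summable_contract {x y : ℕ → ℝ} (hx : ∀ k, 0 ≤ x k) (hy : ∀ k, 0 ≤ y k) (J : ℕ)
    (h : ∀ k, J ≤ k → x (k + 1) ≤ 3 / 4 * x k + y (k + 1)) (hs : Summable y) : Summable x := by
  rw [← summable_nat_add_iff J]
  have h1 : ∀ n, ∑ k ∈ range (n + 1), x (k + J) + 3 * x (n + J) ≤ 4 * (x J + ∑ k ∈ range (n + J + 1), y k) := by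
    intro n
    induction n with
    | zero =>
      have := sum_nonneg (fun k (_ : k ∈ range (0 + J + 1)) => hy k)
      rw [sum_range_one, zero_add]
      rw [zero_add] at this
      linarith
    | succ n ih =>
      rw [sum_range_succ]
      have h2 := h (n + J) (by omega)
      have e1 : n + 1 + J = n + J + 1 := by ring
      rw [e1, sum_range_succ _ (n + J + 1)]
      linarith
  refine summable_of_sum_range_le (c := 4 * (x J + ∑' k, y k)) (fun k => hx _) (fun n => ?_)
  rcases n with _ | n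
  · rw [sum_range_zero]
    have : 0 ≤ ∑' k, y k := tsum_nonneg hy
    have := hx J
    linarith
  · have h2 := h1 n
    have h3 : ∑ k ∈ range (n + J + 1), y k ≤ ∑' k, y k := hs.sum_le_tsum _ (fun k _ => hy k)
    have h4 := hx (n + J)
    linarith

/-- If the costs `w` grow geometrically then the reciprocals are summable. -/
theorem summable_inv {w : ℕ → ℝ} (hw : ∀ k, 0 < w k) (J : ℕ) (hg : ∀ k, J ≤ k → 4 / 3 * w k ≤ w (k + 1)) :
    Summable (fun k => 1 / w k) := by
  refine summable_contract (y := fun _ => 0) (fun k => (one_div_pos.2 (hw k)).le) (fun _ => le_rfl) J (fun k hk => ?_)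
    summable_zero
  have h1 := hg k hk
  have h2 := hw k
  have h3 := hw (k + 1)
  rw [add_zero, div_le_iff₀ h3]
  have h4 : 3 / 4 * (1 / w k) * (4 / 3 * w k) = 1 := by field_simp
  have h5 : 3 / 4 * (1 / w k) * (4 / 3 * w k) ≤ 3 / 4 * (1 / w k) * w (k + 1) :=
    mul_le_mul_of_nonneg_left h1 (by positivity)
  linarith

/-- The increments. -/
noncomputable def inc (d : ℕ → ℝ) (k : ℕ) : ℝ := if k = 0 then d 0 else d k - d (k - 1)

theorem inc_nonneg {d : ℕ → ℝ} (hd : Monotone d) (hd0 : ∀ k, 0 ≤ d k) (k : ℕ) : 0 ≤ inc d k := by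
  unfold inc
  split_ifs with h
  · exact hd0 0
  · have := hd (Nat.sub_le k 1)
    linarith

theorem sum_inc (d : ℕ → ℝ) (k : ℕ) : ∑ j ∈ range (k + 1), inc d j = d k := by
  induction k with
  | zero => simp [inc]
  | succ k ih =>
    rw [sum_range_succ, ih]
    unfold inc
    rw [if_neg (Nat.succ_ne_zero k)]
    simp

/-- The choice of the probabilities. -/
theorem choose_q {d w : ℕ → ℝ} (hd : Monotone d) (hd0 : ∀ k, 0 ≤ d k) (hw : ∀ k, 0 < w k) (J : ℕ)
    (hg : ∀ k, J ≤ k → 4 / 3 * w k ≤ w (k + 1)) (hns : ¬ Summable (fun k => d k / w k)) (M : ℝ) (hM : 0 < M) :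
    ∃ q : ℕ → ℝ, (∀ k, 0 ≤ q k ∧ q k ≤ 1) ∧ ¬ Summable q ∧ (∀ k, ∑ j ∈ range (k + 1), q j * w j ≤ d k) ∧
      ∀ k, q k ≠ 0 → M ≤ q k * w k := by
  classical
  obtain ⟨q0, hq0⟩ : ∃ q0 : ℕ → ℝ, q0 = fun k => min 1 (inc d k / w k) := ⟨_, rfl⟩
  have hi0 := inc_nonneg hd hd0
  have h0 : ∀ k, 0 ≤ q0 k := by
    intro k
    rw [hq0]
    exact le_min zero_le_one (div_nonneg (hi0 k) (hw k).le)
  have h1 : ∀ k, q0 k ≤ 1 := by
    intro k
    rw [hq0]
    exact min_le_left _ _
  have h2 : ∀ k, q0 k * w k ≤ inc d k := by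
    intro k
    have h3 : q0 k ≤ inc d k / w k := by
      rw [hq0]
      exact min_le_right _ _
    rwa [le_div_iff₀ (hw k)] at h3
  have hq0ns : ¬ Summable q0 := by
    intro hs
    apply hns
    have h4 : ∀ᶠ k in atTop, q0 k < 1 := hs.tendsto_atTop_zero.eventually_lt_const one_pos
    have h5 : Summable (fun k => inc d k / w k) := by
      refine Summable.of_norm_bounded_eventually_nat hs ?_
      filter_upwards [h4] with k hk
      rw [Real.norm_eq_abs, abs_of_nonneg (div_nonneg (hi0 k) (hw k).le)]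
      rw [hq0] at hk ⊢
      dsimp only at hk ⊢
      rcases min_choice 1 (inc d k / w k) with h6 | h6
      · rw [h6] at hk
        exact absurd hk (lt_irrefl _)
      · rw [h6]
    refine summable_contract (fun k => div_nonneg (hd0 k) (hw k).le) (fun k => div_nonneg (hi0 k) (hw k).le) J
      (fun k hk => ?_) h5
    have h6 : d (k + 1) = d k + inc d (k + 1) := by
      unfold inc
      rw [if_neg (Nat.succ_ne_zero k)]
      simp
    have h7 : d (k + 1) / w (k + 1) = d k / w (k + 1) + inc d (k + 1) / w (k + 1) := by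
      rw [h6, add_div]
    have h8 : d k / w (k + 1) ≤ 3 / 4 * (d k / w k) := by
      have h9 : d k / w (k + 1) ≤ d k / (4 / 3 * w k) :=
        div_le_div_of_nonneg_left (hd0 k) (by have := hw k; positivity) (hg k hk)
      refine h9.trans (le_of_eq ?_)
      have := (hw k).ne'
      field_simp
    linarith
  refine ⟨fun k => if M ≤ q0 k * w k then q0 k else 0, fun k => ?_, fun hs => ?_, fun k => ?_, fun k hk => ?_⟩
  · dsimp only
    split_ifs
    · exact ⟨h0 k, h1 k⟩
    · exact ⟨le_rfl, zero_le_one⟩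
  · apply hq0ns
    have h3 := hs.add ((summable_inv hw J hg).mul_left M)
    refine h3.of_nonneg_of_le h0 (fun k => ?_)
    by_cases h4 : M ≤ q0 k * w k
    · rw [if_pos h4]
      have := hw k
      have : 0 ≤ M * (1 / w k) := by positivity
      linarith
    · rw [if_neg h4, zero_add, mul_one_div, le_div_iff₀ (hw k)]
      exact (not_le.1 h4).le
  · rw [← sum_inc d k]
    refine sum_le_sum (fun j _ => ?_)
    dsimp only
    by_cases h4 : M ≤ q0 j * w j
    · rw [if_pos h4]
      exact h2 j
    · rw [if_neg h4, zero_mul]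
      exact hi0 j
  · by_cases h4 : M ≤ q0 k * w k
    · dsimp only
      rw [if_pos h4]
      exact h4
    · exact absurd (if_neg h4) hk

end Pool.Agent.Q120.GE
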