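import Pool.Agent.Q120.GE.Fin
import Pool.Agent.Q120.GE.Seq2

/-!
# Project GE: constructions
-/

set_option autoImplicit false

namespace Pool.Agent.Q120.GE

open Finset MeasureTheory Filter Pool.Agent.Q120.ET Pool.Agent.Q120.GM
open scoped Topology

/-- All jobs. -/
structure Jobs : Prop where
  law : J_LAW
  mom : J_MOM
  dev : J_DEV
  thin : J_THIN
  jan : J_JAN
  exc : J_EXC
  ent : J_ENT
  sum : J_SUM
  step : J_STEP
  cond : J_COND
  one : J_ONE
  chain : J_CHAIN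
  size : J_SIZE
  seq : J_SEQ
  ga : J_GA

theorem rep_eq_zero {S : Set ℕ} {n : ℕ} (h : ∀ a b, a + b = n → 3 ≤ a → a ≤ b → a ∈ S → b ∈ S → False) : rep S n = 0 := by
  classical
  unfold rep
  rw [card_eq_zero, filter_eq_empty_iff]
  intro a ha
  rw [mem_range] at ha
  rintro ⟨h1, h2, h3, h4⟩
  rcases le_total a (n - a) with h5 | h5
  · exact h a (n - a) (by omega) h3 h5 h1 h2
  · exact h (n - a) a (by omega) h4 h5 h2 h1

theorem le_zero_of {S : Set ℕ} {k : ℕ} (T : Finset ℕ) (h : ∀ n ∈ T, 2 ^ k ≤ n ∧ n < 2 ^ (k + 1) ∧ Even n ∧ rep S n = 0) :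
    T.card ≤ zero S k := by
  classical
  unfold zero
  refine card_le_card (fun n hn => ?_)
  obtain ⟨h1, h2, h3, h4⟩ := h n hn
  exact mem_filter.2 ⟨mem_Ico.2 ⟨h1, h2⟩, h3, h4⟩

theorem mem_blk {k n : ℕ} : n ∈ blk k ↔ 3 ≤ n ∧ 2 ^ k ≤ n ∧ n < 2 ^ (k + 1) := by
  unfold blk
  rw [mem_Ico, max_le_iff]
  tauto

theorem card_blk (k : ℕ) : (blk k).card ≤ 2 ^ k := by
  unfold blk
  rw [Nat.card_Ico]
  have : 2 ^ (k + 1) = 2 ^ k + 2 ^ k := by ring
  have := le_max_right 3 (2 ^ k)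
  have := Nat.two_pow_pos k
  omega

variable {Ω : Type} [MeasurableSpace Ω] {μ : Measure Ω} [IsProbabilityMeasure μ]

/-- The weight of the sets which are left out. -/
theorem weight (H : Jobs) {C : ℝ} (hC : ∀ (Ω : Type) [MeasurableSpace Ω] (μ : Measure Ω) [IsProbabilityMeasure μ]
    (A R : Ω → Set ℕ), IsRandomSet A → IsModel μ pc R → (∀ ω, A ω ⊆ R ω) → ∀ k : ℕ,
      ∑ T ∈ (low k).powerset, lawOn μ A (low k) T * T.card ≤ C * 2 ^ k / (k + 1))
    {A R : Ω → Set ℕ} (hA : IsRandomSet A) (hR : IsModel μ pc R) (hAR : ∀ ω, A ω ⊆ R ω) (j : ℕ) (W : Finset ℕ → Finset ℕ)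
    {a b : ℝ} (hb : 0 ≤ b) (hW : ∀ T, T ⊆ low j → ((W T ∩ blk j).card : ℝ) ≤ a + b * T.card) :
    ∑ T ∈ (low j).powerset, lawOn μ A (low j) T * ∑ n ∈ W T ∩ blk j, lam n ≤
      7 / ((j : ℝ) + 1) * (a + b * (C * 2 ^ j / (j + 1))) := by
  have h1 : ∑ T ∈ (low j).powerset, lawOn μ A (low j) T * ∑ n ∈ W T ∩ blk j, lam n ≤
      ∑ T ∈ (low j).powerset, (7 / ((j : ℝ) + 1) * a * lawOn μ A (low j) T +
        7 / ((j : ℝ) + 1) * b * (lawOn μ A (low j) T * T.card)) := by
    refine sum_le_sum (fun T hT => ?_)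
    have h2 := lam_sum H.size j (W T)
    have h3 := hW T (mem_powerset.1 hT)
    have h4 : (0 : ℝ) ≤ 7 / ((j : ℝ) + 1) := by positivity
    have h5 : ∑ n ∈ W T ∩ blk j, lam n ≤ 7 / ((j : ℝ) + 1) * (a + b * T.card) :=
      h2.trans (mul_le_mul_of_nonneg_left h3 h4)
    have h6 := mul_le_mul_of_nonneg_left h5 (law_nonneg (μ := μ) (A := A) (low j) T)
    refine h6.trans (le_of_eq ?_)
    ring
  refine h1.trans ?_
  rw [sum_add_distrib, ← mul_sum, ← mul_sum, sum_law hA]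
  have h2 := hC Ω μ A R hA hR hAR j
  have h3 : (0 : ℝ) ≤ 7 / ((j : ℝ) + 1) * b := by positivity
  have h4 := mul_le_mul_of_nonneg_left h2 h3
  refine (add_le_add_right h4 _).trans (le_of_eq ?_)
  ring

/-- The weight, if only the total size is bounded. -/
theorem weight' (H : Jobs) {A : Ω → Set ℕ} (hA : IsRandomSet A) (j : ℕ) (W : Finset ℕ → Finset ℕ) {a : ℝ}
    (hW : ∀ T, T ⊆ low j → ((W T ∩ blk j).card : ℝ) ≤ a) :
    ∑ T ∈ (low j).powerset, lawOn μ A (low j) T * ∑ n ∈ W T ∩ blk j, lam n ≤ 7 / ((j : ℝ) + 1) * a := by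
  have h1 : ∑ T ∈ (low j).powerset, lawOn μ A (low j) T * ∑ n ∈ W T ∩ blk j, lam n ≤
      ∑ T ∈ (low j).powerset, 7 / ((j : ℝ) + 1) * a * lawOn μ A (low j) T := by
    refine sum_le_sum (fun T hT => ?_)
    have h2 := lam_sum H.size j (W T)
    have h3 := hW T (mem_powerset.1 hT)
    have h4 : (0 : ℝ) ≤ 7 / ((j : ℝ) + 1) := by positivity
    have h5 : ∑ n ∈ W T ∩ blk j, lam n ≤ 7 / ((j : ℝ) + 1) * a := h2.trans (mul_le_mul_of_nonneg_left h3 h4)
    have h6 := mul_le_mul_of_nonneg_left h5 (law_nonneg (μ := μ) (A := A) (low j) T)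
    refine h6.trans (le_of_eq ?_)
    ring
  refine h1.trans (le_of_eq ?_)
  rw [← mul_sum, sum_law hA, mul_one]

/-- The construction with its entropy. -/
theorem construct (H : Jobs) (q : ℕ → ℝ) (hq : ∀ k, 0 ≤ q k ∧ q k ≤ 1) (W : ℕ → Finset ℕ → Finset ℕ) :
    ∃ (Ω : Type) (_ : MeasurableSpace Ω) (μ : Measure Ω) (_ : IsProbabilityMeasure μ) (X : Ω → Set (ℕ ⊕ ℕ)),
      IsModel μ (Sum.elim pc q) X ∧ IsRandomSet (fun ω => del W (Rn (X ω)) (Cn (X ω))) ∧
      ∀ w : ℕ → ℝ, (∀ j, 0 < q j → ∑ T ∈ (low j).powerset, lawOn μ (fun ω => del W (Rn (X ω)) (Cn (X ω))) (low j) T *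
        ∑ n ∈ W j T ∩ blk j, lam n ≤ w j) →
        ∀ k, relEntropy μ (fun ω => del W (Rn (X ω)) (Cn (X ω))) (low (k + 1)) ≤ ∑ j ∈ range (k + 1), 2 * q j * (1 + w j) := by
  obtain ⟨Ω, mΩ, μ, hμ, X, hX⟩ := exists_space q hq
  obtain ⟨h1, h2⟩ := H.cond H.step H.law Ω μ X q hq hX W
  refine ⟨Ω, mΩ, μ, hμ, X, hX, h1, fun w hw k => ?_⟩
  exact chain_sum H.step H.one H.chain μ _ h1 q hq W h2 w hw k

theorem del_sub (H : Jobs) (W : ℕ → Finset ℕ → Finset ℕ) (R c : Set ℕ) : del W R c ⊆ R :=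
  fun n hn => ((H.step.2.2 W R c).1 n hn).2

/-! ## Few exceptions -/

theorem small_zero (H : Jobs) (m : ℕ → ℕ) (R c : Set ℕ) {K : ℕ} (hm : 4 * m K ≤ 2 ^ K) (hc : K ∈ c)
    (hR : ∀ n ∈ Ico (2 ^ K - 2 * m K) (2 ^ K), n ∉ R) :
    m K ≤ zero (del (fun k S => Wb k (m k) k S) R c) K := by
  classical
  obtain ⟨h1, h2⟩ := H.step.2.2 (fun k S => Wb k (m k) k S) R c
  obtain ⟨h3, h4, h5⟩ := h2 K
  have e1 : 2 ^ (K + 1) = 2 ^ K + 2 ^ K := by ring
  have h6 := le_zero_of (S := del (fun k S => Wb k (m k) k S) R c) (k := K)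
    ((Icc 1 (m K)).image (fun i => 2 ^ (K + 1) - 2 * i)) (by
    intro n hn
    obtain ⟨i, hi, rfl⟩ := mem_image.1 hn
    rw [mem_Icc] at hi
    refine ⟨by omega, by omega, ?_, ?_⟩
    · refine ⟨2 ^ K - i, by omega⟩
    · refine rep_eq_zero (fun a b hab h3a h_le ha hb => ?_)
      rcases lt_or_ge b (2 ^ K) with h7 | h7
      · exact hR a (mem_Ico.2 ⟨by omega, by omega⟩) (h1 a ha).2
      · have hbb : b ∈ blk K := mem_blk.2 ⟨by omega, h7, by omega⟩
        have haK : a < 2 ^ K := by omega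
        have has : a ∈ step (fun k S => Wb k (m k) k S) R c K := (h4 a (mem_low.2 ⟨h3a, haK⟩)).1 ha
        apply ((h5 b hbb).1 hb).2
        refine ⟨hc, ?_⟩
        dsimp only [Wb]
        rw [if_pos rfl, mem_filter]
        refine ⟨hbb, Or.inr ⟨i, mem_Icc.2 hi, ?_⟩⟩
        have e2 : 2 ^ (K + 1) - 2 * i - b = a := by omega
        rw [e2]
        exact has)
  rw [card_image_of_injOn, Nat.card_Icc] at h6
  · omega
  · intro i hi j hj hij
    simp only [coe_Icc, Set.mem_Icc] at hi hj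
    dsimp only at hij
    omega

theorem sq_le_pow (j : ℕ) : (j + 1) ^ 2 ≤ 4 * 2 ^ j := by
  induction j with
  | zero => norm_num
  | succ j ih =>
    rcases Nat.lt_or_ge j 2 with h | h
    · interval_cases j <;> norm_num
    · rw [pow_succ 2 j]
      nlinarith

theorem succ_le_pow (j : ℕ) : j + 1 ≤ 2 ^ j := by
  have := Nat.lt_two_pow_self (n := j)
  omega

/-- The constant of the costs. -/
noncomputable def v (j : ℕ) : ℝ := 2 ^ j / ((j : ℝ) + 1)

theorem one_le_v (j : ℕ) : 1 ≤ v j := by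
  unfold v
  rw [one_le_div (by positivity)]
  exact_mod_cast succ_le_pow j

/-- The probability that `R` has no element in `B`. -/
theorem real_free (H : Jobs) {q : ℕ → ℝ} {X : Ω → Set (ℕ ⊕ ℕ)} (hX : IsModel μ (Sum.elim pc q) X) (B : Finset ℕ) :
    μ.real (none X B (fun n => {Sum.inl n})) = ∏ n ∈ B, (1 - pc n) := by
  have h1 := (H.law Ω μ (fun ω => Rn (X ω))).1 pc (model_R hX) B ∅ (empty_subset B)
  rw [prod_empty, one_mul, sdiff_empty] at h1
  rw [← h1]
  unfold lawOn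
  congr 1
  ext ω
  simp only [GM.none, all, Set.mem_ofPred_eq, mem_singleton, forall_eq, notMem_empty, iff_false]
  rfl

theorem one_sub_pc {n : ℕ} (hn : 3 ≤ n) : 1 - pc n = Real.exp (-lam n) := by
  unfold lam pc
  rw [if_pos hn, neg_neg, Real.exp_log]
  have h1 := one_lt_log hn
  rw [sub_pos, div_lt_one (by linarith)]
  exact h1

/-- Infinitely many blocks with `m k ≤ k + 1` exceptions. -/
theorem some_small (H : Jobs) {C : ℝ} (hC0 : 0 < C) (hC : ∀ (Ω : Type) [MeasurableSpace Ω] (μ : Measure Ω) [IsProbabilityMeasure μ]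
    (A R : Ω → Set ℕ), IsRandomSet A → IsModel μ pc R → (∀ ω, A ω ⊆ R ω) → ∀ k : ℕ,
      ∑ T ∈ (low k).powerset, lawOn μ A (low k) T * T.card ≤ C * 2 ^ k / (k + 1))
    (m : ℕ → ℕ) (hm1 : ∀ k, 1 ≤ m k) (hm4 : ∀ k, 8 ≤ k → 4 * m k ≤ 2 ^ k) (q : ℕ → ℝ) (hq : ∀ k, 0 ≤ q k ∧ q k ≤ 1)
    (hq1 : ∀ k, q k ≠ 0 → 8 ≤ k ∧ m k ≤ k + 1) (hns : ¬ Summable q) :
    ∃ (Ω : Type) (_ : MeasurableSpace Ω) (μ : Measure Ω) (_ : IsProbabilityMeasure μ) (A : Ω → Set ℕ), IsRandomSet A ∧
      (∀ k, relEntropy μ A (low (k + 1)) ≤ ∑ j ∈ range (k + 1), q j * ((88 + 14 * C) * (2 ^ j * m j / (j + 1) ^ 2))) ∧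
      ∀ᵐ ω ∂μ, ∃ᶠ k in atTop, m k ≤ zero (A ω) k := by
  obtain ⟨Ω, mΩ, μ, hμ, X, hX, hA, hent⟩ := construct H q hq (fun k S => Wb k (m k) k S)
  refine ⟨Ω, mΩ, μ, hμ, _, hA, fun k => ?_, ?_⟩
  · refine (hent (fun j => 7 / ((j : ℝ) + 1) * (1 + m j * (C * 2 ^ j / (j + 1)))) (fun j hj => ?_) k).trans ?_
    · refine weight H hC hA (model_R hX) (fun ω => del_sub H _ _ _) j _ (Nat.cast_nonneg _) (fun T hT => ?_)
      have h0 : 0 ∉ T := by
        intro h
        have := (mem_low.1 (hT h)).1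
        omega
      have h1 := H.ga H.step
      have h2 := h1.2.2.2.1 j (m j) T h0
      have h3 : ((Wb j (m j) j T ∩ blk j).card : ℝ) ≤ (Wb j (m j) j T).card := by
        exact_mod_cast card_le_card inter_subset_left
      refine h3.trans ?_
      exact_mod_cast h2
    · refine sum_le_sum (fun j _ => ?_)
      have h1 : 2 * q j * (1 + 7 / ((j : ℝ) + 1) * (1 + m j * (C * 2 ^ j / (j + 1)))) =
          q j * (2 + 14 / ((j : ℝ) + 1) + 14 * C * (2 ^ j * m j / (j + 1) ^ 2)) := by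
        field_simp
        ring
      rw [h1]
      apply mul_le_mul_of_nonneg_left _ (hq j).1
      have h2 : 14 / ((j : ℝ) + 1) ≤ 14 := by
        rw [div_le_iff₀ (by positivity)]
        have : (0 : ℝ) ≤ j := Nat.cast_nonneg j
        linarith
      have h3 : (1 : ℝ) ≤ 4 * (2 ^ j * m j / (j + 1) ^ 2) := by
        rw [← mul_div_assoc, le_div_iff₀ (by positivity), one_mul]
        have h4 : (((j : ℝ) + 1) ^ 2) ≤ 4 * 2 ^ j := by exact_mod_cast sq_le_pow j
        have h5 : (1 : ℝ) ≤ m j := by exact_mod_cast hm1 j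
        have h6 : (0 : ℝ) < 2 ^ j := by positivity
        nlinarith
      nlinarith
  · have h1 := often' hX (fun K => {Sum.inr K} ∪ Sum.inl '' (Ico (2 ^ K - 2 * m K) (2 ^ K) : Set ℕ)) 8 ?_
      (fun K => if q K = 0 then ∅ else {ω | Sum.inr K ∈ X ω} ∩
        none X (Ico (2 ^ K - 2 * m K) (2 ^ K)) (fun n => {Sum.inl n})) ?_ (g := fun K => Real.exp (-28) * q K) ?_ ?_
    · filter_upwards [h1] with ω hω
      refine hω.mono (fun K hK => ?_)
      by_cases hqK : q K = 0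
      · rw [if_pos hqK] at hK
        exact absurd hK (Set.notMem_empty _)
      · rw [if_neg hqK] at hK
        refine small_zero H m _ _ (hm4 K (hq1 K hqK).1) hK.1 (fun n hn hR => ?_)
        refine hK.2 n hn ?_
        intro i hi
        rw [mem_singleton] at hi
        rw [hi]
        exact hR
    · intro i j hi hj hij
      rw [Set.disjoint_left]
      have hb : ∀ i, 8 ≤ i → ∀ n, n ∈ (Ico (2 ^ i - 2 * m i) (2 ^ i) : Finset ℕ) → Nat.log 2 n = i - 1 := by
        intro i hi n hn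
        rw [mem_Ico] at hn
        have h1 := hm4 i hi
        have e1 : 2 ^ i = 2 ^ (i - 1) + 2 ^ (i - 1) := by
          obtain ⟨i', rfl⟩ : ∃ i', i = i' + 1 := ⟨i - 1, by omega⟩
          rw [Nat.add_sub_cancel]
          ring
        have e2 : i - 1 + 1 = i := by omega
        refine (Nat.log_eq_iff (Or.inr ⟨by norm_num, by have := Nat.two_pow_pos (i - 1); omega⟩)).2 ⟨by omega, ?_⟩
        rw [e2]
        exact hn.2
      rintro x hx hy
      rcases hx with hx | ⟨n, hn, rfl⟩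
      · rw [Set.mem_singleton_iff] at hx
        rw [hx] at hy
        rcases hy with hy | ⟨n, hn, hy⟩
        · rw [Set.mem_singleton_iff] at hy
          exact hij (Sum.inr_injective hy)
        · exact absurd hy (by simp)
      · rcases hy with hy | ⟨n', hn', hy⟩
        · rw [Set.mem_singleton_iff] at hy
          exact absurd hy (by simp)
        · have h1 : n' = n := Sum.inl_injective hy
          rw [h1] at hn'
          have h2 := hb i hi n (Finset.mem_coe.1 hn)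
          have h3 := hb j hj n (Finset.mem_coe.1 hn')
          omega
    · intro K
      by_cases hqK : q K = 0
      · rw [if_pos hqK]
        exact @MeasurableSet.empty _ (F X _)
      · rw [if_neg hqK]
        refine MeasurableSet.inter (F_mem (Or.inl rfl)) (F_none (fun n hn i hi => ?_))
        rw [mem_singleton] at hi
        rw [hi]
        exact Or.inr ⟨n, hn, rfl⟩
    · intro hs
      apply hns
      have := hs.mul_left (Real.exp 28)
      refine this.congr (fun K => ?_)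
      rw [← mul_assoc, ← Real.exp_add]
      norm_num
    · filter_upwards [eventually_ge_atTop 8] with K hK
      by_cases hqK : q K = 0
      · rw [if_pos hqK, hqK]
        simp
      · rw [if_neg hqK, abs_of_nonneg (mul_nonneg (Real.exp_pos _).le (hq K).1)]
        have h2 := indep_real hX (S := {Sum.inr K}) (T := Sum.inl '' (Ico (2 ^ K - 2 * m K) (2 ^ K) : Set ℕ)) (by
          rw [Set.disjoint_singleton_left]
          rintro ⟨n, _, hn⟩
          exact absurd hn (by simp)) (E := {ω | Sum.inr K ∈ X ω}) (F_mem rfl)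
          (G := none X (Ico (2 ^ K - 2 * m K) (2 ^ K)) (fun n => {Sum.inl n})) (F_none (fun n hn i hi => by
            rw [mem_singleton] at hi
            rw [hi]
            exact ⟨n, hn, rfl⟩))
        rw [h2, hX.prob (Sum.inr K), real_free H hX]
        dsimp only [Sum.elim_inr]
        rw [mul_comm]
        apply mul_le_mul_of_nonneg_left _ (hq K).1
        have h3 := hm4 K hK
        have e1 : 2 ^ K = 2 ^ (K - 1) + 2 ^ (K - 1) := by
          obtain ⟨i', rfl⟩ : ∃ i', K = i' + 1 := ⟨K - 1, by omega⟩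
          rw [Nat.add_sub_cancel]
          ring
        have h8 : 8 ≤ 2 ^ (K - 1) := by
          have : (2 : ℕ) ^ 3 ≤ 2 ^ (K - 1) := Nat.pow_le_pow_right (by norm_num) (by omega)
          omega
        have h4 : ∏ n ∈ Ico (2 ^ K - 2 * m K) (2 ^ K), (1 - pc n) = Real.exp (-∑ n ∈ Ico (2 ^ K - 2 * m K) (2 ^ K), lam n) := by
          rw [← sum_neg_distrib, Real.exp_sum]
          refine prod_congr rfl (fun n hn => ?_)
          rw [mem_Ico] at hn
          exact one_sub_pc (by omega)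
        rw [h4, Real.exp_le_exp, neg_le_neg_iff]
        have h5 : ∑ n ∈ Ico (2 ^ K - 2 * m K) (2 ^ K), lam n ≤ ∑ _n ∈ Ico (2 ^ K - 2 * m K) (2 ^ K), 7 / (((K - 1 : ℕ) : ℝ) + 1) := by
          refine sum_le_sum (fun n hn => ?_)
          rw [mem_Ico] at hn
          refine (H.size.1 (K - 1) n (mem_blk.2 ⟨by omega, by omega, ?_⟩)).2
          have e2 : K - 1 + 1 = K := by omega
          rw [e2]
          exact hn.2
        refine h5.trans ?_
        rw [sum_const, nsmul_eq_mul, Nat.card_Ico]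
        have e3 : 2 ^ K - (2 ^ K - 2 * m K) = 2 * m K := by omega
        have e4 : ((K - 1 : ℕ) : ℝ) + 1 = K := by
          have : K - 1 + 1 = K := by omega
          exact_mod_cast this
        rw [e3, e4]
        have hK0 : (8 : ℝ) ≤ K := by exact_mod_cast hK
        have h6 : (m K : ℝ) ≤ K + 1 := by exact_mod_cast (hq1 K hqK).2
        push_cast
        rw [mul_div_assoc', div_le_iff₀ (by linarith)]
        linarith

end Pool.Agent.Q120.GE
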