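import Pool.Agent.Q120.GE.Stm
import Pool.Agent.Q120.GM.Often

/-!
# Project GE: assembly
-/

set_option autoImplicit false

namespace Pool.Agent.Q120.GE

open Finset MeasureTheory Filter Pool.Agent.Q120.ET Pool.Agent.Q120.GM
open scoped Topology

theorem pc_nonneg (n : ℕ) : 0 ≤ pc n := by
  unfold pc
  split_ifs with h
  · have := one_lt_log h
    positivity
  · exact le_rfl

theorem pc_le_one (n : ℕ) : pc n ≤ 1 := by
  unfold pc
  split_ifs with h
  · have := one_lt_log h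
    rw [div_le_one (by linarith)]
    linarith
  · exact zero_le_one

theorem mem_low {k n : ℕ} : n ∈ low k ↔ 3 ≤ n ∧ n < 2 ^ k := by
  unfold low
  exact mem_Ico

theorem rep_congr {S S' : Set ℕ} {n : ℕ} (h : ∀ a, 3 ≤ a → a ≤ n → (a ∈ S ↔ a ∈ S')) : rep S n = rep S' n := by
  classical
  unfold rep
  congr 1
  refine filter_congr (fun a ha => ?_)
  rw [mem_range] at ha
  constructor
  · rintro ⟨h1, h2, h3, h4⟩
    exact ⟨(h a h3 (by omega)).1 h1, (h (n - a) h4 (by omega)).1 h2, h3, h4⟩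
  · rintro ⟨h1, h2, h3, h4⟩
    exact ⟨(h a h3 (by omega)).2 h1, (h (n - a) h4 (by omega)).2 h2, h3, h4⟩

/-- `rep` depends only on the elements in `low`. -/
theorem rep_tr {Ω : Type*} [MeasurableSpace Ω] (A : Ω → Set ℕ) (ω : Ω) {k n : ℕ} (hn : n < 2 ^ (k + 1)) :
    rep (A ω) n = rep ((tr A (low (k + 1)) ω : Finset ℕ) : Set ℕ) n := by
  refine rep_congr (fun a h3 ha => ?_)
  rw [Finset.mem_coe, mem_tr, mem_low]
  constructor
  · intro h
    exact ⟨⟨h3, by omega⟩, h⟩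
  · intro h
    exact h.2

theorem exc_tr {Ω : Type*} [MeasurableSpace Ω] (A : Ω → Set ℕ) (ω : Ω) (c : ℝ) (k : ℕ) :
    exc c (A ω) k = exc c ((tr A (low (k + 1)) ω : Finset ℕ) : Set ℕ) k := by
  classical
  unfold exc
  congr 1
  refine filter_congr (fun n hn => ?_)
  rw [rep_tr A ω (mem_Ico.1 hn).2]

theorem cost_pos {k m : ℕ} (hk : 1 ≤ k) (hm : 1 ≤ m) : 0 < cost k m := by
  unfold cost
  have hk0 : (0 : ℝ) < k := by exact_mod_cast hk
  have hm0 : (0 : ℝ) < m := by exact_mod_cast hm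
  exact mul_pos (by positivity) (lt_min (by positivity) (by positivity))

/-- (1) The upper bound for the number of exceptions. -/
theorem part_one (hLAW : J_LAW) (hTHIN : J_THIN) (hJAN : J_JAN) (hEXC : J_EXC) (hENT : J_ENT) : ∃ K₀ : ℕ, 200 ≤ K₀ ∧ ∀ k : ℕ, K₀ ≤ k →
    ∀ m : ℕ, 1 ≤ m → ∀ (Ω : Type) [MeasurableSpace Ω] (μ : Measure Ω) [IsProbabilityMeasure μ] (A : Ω → Set ℕ), IsRandomSet A →
      μ.real {ω | m ≤ exc (1 / 100) (A ω) k} ≤ 40000 * (1 + relEntropy μ A (low (k + 1))) / cost k m := by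
  classical
  obtain ⟨K₀, hK₀, h1⟩ := hEXC (hJAN hTHIN)
  refine ⟨K₀, hK₀, fun k hk m hm Ω _ μ _ A hA => ?_⟩
  have hc := cost_pos (k := k) (m := m) (by omega) hm
  have key : ∀ (Ω : Type) [MeasurableSpace Ω] (A : Ω → Set ℕ), {ω | m ≤ exc (1 / 100) (A ω) k} =
      {ω | m ≤ exc (1 / 100) ((tr A (low (k + 1)) ω : Finset ℕ) : Set ℕ) k} := by
    intro Ω _ A
    ext ω
    rw [Set.mem_ofPred_eq, Set.mem_ofPred_eq, exc_tr]
  have h2 := hENT hLAW k (fun T => m ≤ exc (1 / 100) ((T : Finset ℕ) : Set ℕ) k) (cost k m / 40000) (by positivity)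
    (fun Ω _ μ _ A hA => by
      rw [← key]
      exact h1 k hk Ω μ A hA m hm) Ω μ A hA
  rw [key]
  refine h2.trans (le_of_eq ?_)
  field_simp

/-! ## Constructions -/

/-- The chain of the steps. -/
theorem chain_sum (hSTEP : J_STEP) (hONE : J_ONE) (hCHAIN : J_CHAIN) {Ω : Type} [MeasurableSpace Ω] (μ : Measure Ω)
    [IsProbabilityMeasure μ] (A : Ω → Set ℕ) (hA : IsRandomSet A) (q : ℕ → ℝ) (hq : ∀ k, 0 ≤ q k ∧ q k ≤ 1)
    (W : ℕ → Finset ℕ → Finset ℕ)
    (h : ∀ (k : ℕ) (T : Finset ℕ), T ⊆ low (k + 1) →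
      lawOn μ A (low (k + 1)) T = lawOn μ A (low k) (T ∩ low k) * rr (q k) (blk k) (W k (T ∩ low k)) (T ∩ blk k))
    (w : ℕ → ℝ) (hw : ∀ j, 0 < q j → ∑ T ∈ (low j).powerset, lawOn μ A (low j) T * ∑ n ∈ W j T ∩ blk j, lam n ≤ w j) (k : ℕ) :
    relEntropy μ A (low (k + 1)) ≤ ∑ j ∈ range (k + 1), 2 * q j * (1 + w j) := by
  have hstep : ∀ j, relEntropy μ A (low (j + 1)) ≤ relEntropy μ A (low j) + 2 * q j * (1 + w j) := by
    intro j
    refine (hCHAIN hSTEP hONE Ω μ A j (q j) (W j) hA (hq j).1 (hq j).2 (h j)).trans ?_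
    have e1 : ∑ T ∈ (low j).powerset, lawOn μ A (low j) T * (2 * q j * (1 + ∑ n ∈ W j T ∩ blk j, lam n)) =
        2 * q j * (1 + ∑ T ∈ (low j).powerset, lawOn μ A (low j) T * ∑ n ∈ W j T ∩ blk j, lam n) := by
      have e2 : ∀ T ∈ (low j).powerset, lawOn μ A (low j) T * (2 * q j * (1 + ∑ n ∈ W j T ∩ blk j, lam n)) =
          2 * q j * lawOn μ A (low j) T + 2 * q j * (lawOn μ A (low j) T * ∑ n ∈ W j T ∩ blk j, lam n) := fun T _ => by ring
      rw [sum_congr rfl e2, sum_add_distrib, ← mul_sum, ← mul_sum, sum_law hA]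
      ring
    rw [e1]
    rcases (hq j).1.eq_or_lt with h0 | h0
    · rw [← h0]
      simp
    · have := hw j h0
      have h2 : 0 ≤ 2 * q j := by linarith
      have := mul_le_mul_of_nonneg_left (add_le_add_right this 1) h2
      linarith
  have h0 : relEntropy μ A (low 0) = 0 := by
    have e1 : low 0 = ∅ := by
      unfold low
      rfl
    unfold relEntropy
    rw [e1, powerset_empty, sum_singleton]
    have e2 : lawOn μ A ∅ ∅ = 1 := by
      unfold lawOn
      simp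
    have e3 : cramerOn ∅ ∅ = 1 := by
      unfold cramerOn
      simp
    rw [e2, e3]
    simp
  induction k with
  | zero =>
    have := hstep 0
    rw [h0] at this
    rw [sum_range_one]
    linarith
  | succ k ih =>
    rw [sum_range_succ]
    have := hstep (k + 1)
    linarith

/-- The basic space. -/
theorem exists_space (q : ℕ → ℝ) (hq : ∀ k, 0 ≤ q k ∧ q k ≤ 1) : ∃ (Ω : Type) (_ : MeasurableSpace Ω) (μ : Measure Ω)
    (_ : IsProbabilityMeasure μ) (X : Ω → Set (ℕ ⊕ ℕ)), IsModel μ (Sum.elim pc q) X := by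
  refine ⟨_, inferInstance, prodMeasure (Sum.elim pc q), inferInstance, trueSet, isModel (Sum.elim pc q) ?_ ?_⟩
  · intro i
    rcases i with n | k
    · exact pc_nonneg n
    · exact (hq k).1
  · intro i
    rcases i with n | k
    · exact pc_le_one n
    · exact (hq k).2

variable {Ω : Type} [MeasurableSpace Ω] {μ : Measure Ω} [IsProbabilityMeasure μ] {X : Ω → Set (ℕ ⊕ ℕ)} {q : ℕ → ℝ}

theorem model_R (hX : IsModel μ (Sum.elim pc q) X) : IsModel μ pc (fun ω => Rn (X ω)) := by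
  refine ⟨fun n => hX.meas (Sum.inl n), ?_, fun n => hX.prob (Sum.inl n)⟩
  exact hX.indep.precomp Sum.inl_injective

theorem model_C (hX : IsModel μ (Sum.elim pc q) X) : IsModel μ q (fun ω => Cn (X ω)) := by
  refine ⟨fun n => hX.meas (Sum.inr n), ?_, fun n => hX.prob (Sum.inr n)⟩
  exact hX.indep.precomp Sum.inr_injective

theorem scale_one (hX : IsModel μ (Sum.elim pc q) X) {k : ℕ} (hk : q k = 1) : ∀ᵐ ω ∂μ, k ∈ Cn (X ω) := by
  have h1 := (model_C hX).prob k
  rw [hk] at h1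
  have h2 : μ {ω | k ∈ Cn (X ω)} = 1 := by
    rw [← ENNReal.toReal_eq_one_iff]
    exact h1
  exact (prob_compl_eq_zero_iff ((model_C hX).meas k)).2 h2

theorem scales_often (hX : IsModel μ (Sum.elim pc q) X) (hq : ¬ Summable q) : ∀ᵐ ω ∂μ, ∃ᶠ k in atTop, k ∈ Cn (X ω) := by
  refine often (model_C hX) (fun k => {k}) (fun i j hij => Set.disjoint_singleton.2 hij) (fun k => {ω | k ∈ Cn (X ω)}) ?_ ?_
  · intro k
    have h1 : {ω | k ∈ Cn (X ω)} = all (fun ω => Cn (X ω)) {k} := by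
      ext ω
      simp [all]
    rw [h1]
    exact F_all (fun i hi => by rw [mem_singleton] at hi; exact hi)
  · have h1 : (fun k => μ.real {ω | k ∈ Cn (X ω)}) = q := by
      funext k
      exact (model_C hX).prob k
    rw [h1]
    exact hq

theorem law_nonneg {A : Ω → Set ℕ} (B T : Finset ℕ) : 0 ≤ lawOn μ A B T := measureReal_nonneg

/-- The weight of a set which is left out. -/
theorem lam_sum (hSIZE : J_SIZE) (k : ℕ) (U : Finset ℕ) : ∑ n ∈ U ∩ blk k, lam n ≤ 7 / ((k : ℝ) + 1) * (U ∩ blk k).card := by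
  have h1 : ∑ n ∈ U ∩ blk k, lam n ≤ ∑ _n ∈ U ∩ blk k, 7 / ((k : ℝ) + 1) :=
    sum_le_sum (fun n hn => (hSIZE.1 k n (mem_inter.1 hn).2).2)
  refine h1.trans (le_of_eq ?_)
  rw [sum_const, nsmul_eq_mul, mul_comm]

end Pool.Agent.Q120.GE
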