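import Pool.Agent.Q120.GE.Build

/-!
# Project GE: many exceptions
-/

set_option autoImplicit false

namespace Pool.Agent.Q120.GE

open Finset MeasureTheory Filter Pool.Agent.Q120.ET Pool.Agent.Q120.GM
open scoped Topology

/-- The upper half of the block. -/
def hi (k : ℕ) : Finset ℕ := Ico (3 * 2 ^ (k - 1)) (2 ^ (k + 1))

open Classical in
/-- The set left out. -/
noncomputable def Wl (ρ : ℕ) (k : ℕ) (S : Finset ℕ) : Finset ℕ :=
  if k % 2 = ρ then hi k else if Disjoint S (hi (k - 1)) then blk k else ∅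

theorem large_zero (H : Jobs) (ρ : ℕ) (R c : Set ℕ) {K : ℕ} (hρ : K % 2 = ρ) (hK : 2 ≤ K) (hc : K ∈ c) (hc' : K + 1 ∈ c) :
    2 ^ (K - 1) ≤ zero (del (Wl ρ) R c) (K + 1) := by
  classical
  obtain ⟨h1, h2⟩ := H.step.2.2 (Wl ρ) R c
  obtain ⟨h3, h4, h5⟩ := h2 K
  obtain ⟨h3', h4', h5'⟩ := h2 (K + 1)
  have e1 : 2 ^ (K + 1) = 2 ^ K + 2 ^ K := by ring
  have e2 : 2 ^ (K + 1 + 1) = 2 ^ (K + 1) + 2 ^ (K + 1) := by ring
  have e3 : 2 ^ K = 2 ^ (K - 1) + 2 ^ (K - 1) := by
    obtain ⟨i', rfl⟩ : ∃ i', K = i' + 1 := ⟨K - 1, by omega⟩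
    rw [Nat.add_sub_cancel]
    ring
  have h8 : 2 ≤ 2 ^ (K - 1) := by
    have : (2 : ℕ) ^ 1 ≤ 2 ^ (K - 1) := Nat.pow_le_pow_right (by norm_num) (by omega)
    omega
  have key1 : ∀ b ∈ hi K, b ∉ del (Wl ρ) R c := by
    intro b hb hbd
    have hb' := mem_Ico.1 hb
    apply ((h5 b (mem_blk.2 ⟨by omega, by omega, hb'.2⟩)).1 hbd).2
    refine ⟨hc, ?_⟩
    unfold Wl
    rw [if_pos hρ]
    exact hb
  have key2 : Wl ρ (K + 1) (step (Wl ρ) R c (K + 1)) = blk (K + 1) := by
    unfold Wl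
    rw [if_neg (by omega), Nat.add_sub_cancel, if_pos]
    rw [disjoint_left]
    intro n hn hn2
    have h6 := h3' hn
    exact key1 n hn2 ((h4' n h6).2 hn)
  have key3 : ∀ b ∈ blk (K + 1), b ∉ del (Wl ρ) R c := by
    intro b hb hbd
    apply ((h5' b hb).1 hbd).2
    refine ⟨hc', ?_⟩
    rw [key2]
    exact hb
  have h6 := le_zero_of (S := del (Wl ρ) R c) (k := K + 1)
    ((Ico (3 * 2 ^ (K - 1)) (2 ^ (K + 1))).image (fun i => 2 * i)) (by
    intro n hn
    obtain ⟨i, hi, rfl⟩ := mem_image.1 hn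
    rw [mem_Ico] at hi
    refine ⟨by omega, by omega, even_two_mul i, ?_⟩
    refine rep_eq_zero (fun a b hab h3a h_le ha hb => ?_)
    rcases lt_or_ge b (2 ^ (K + 1)) with h7 | h7
    · exact key1 b (mem_Ico.2 ⟨by omega, h7⟩) hb
    · exact key3 b (mem_blk.2 ⟨by omega, h7, by omega⟩) hb)
  rw [card_image_of_injOn, Nat.card_Ico] at h6
  · omega
  · intro i hi j hj hij
    dsimp only at hij
    omega

variable {Ω : Type} [MeasurableSpace Ω] {μ : Measure Ω} [IsProbabilityMeasure μ]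

/-- The probability that the upper half is empty. -/
theorem hi_free (H : Jobs) {q : ℕ → ℝ} {X : Ω → Set (ℕ ⊕ ℕ)} (hX : IsModel μ (Sum.elim pc q) X) {K : ℕ} (hK : 2 ≤ K)
    (ρ : ℕ) : μ.real {ω | Disjoint (tr (fun ω => del (Wl ρ) (Rn (X ω)) (Cn (X ω))) (low (K + 1)) ω) (hi K)} ≤
      q K + ((K : ℝ) + 1) / 2 ^ (K - 1) := by
  classical
  have e1 : 2 ^ (K + 1) = 2 ^ K + 2 ^ K := by ring
  have e3 : 2 ^ K = 2 ^ (K - 1) + 2 ^ (K - 1) := by
    obtain ⟨i', rfl⟩ : ∃ i', K = i' + 1 := ⟨K - 1, by omega⟩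
    rw [Nat.add_sub_cancel]
    ring
  have h8 : 2 ≤ 2 ^ (K - 1) := by
    have : (2 : ℕ) ^ 1 ≤ 2 ^ (K - 1) := Nat.pow_le_pow_right (by norm_num) (by omega)
    omega
  have h1 : {ω | Disjoint (tr (fun ω => del (Wl ρ) (Rn (X ω)) (Cn (X ω))) (low (K + 1)) ω) (hi K)} ⊆
      {ω | Sum.inr K ∈ X ω} ∪ GM.none X (hi K) (fun n => {Sum.inl n}) := by
    intro ω hω
    by_cases hK' : Sum.inr K ∈ X ω
    · exact Or.inl hK'
    · refine Or.inr (fun n hn hall => ?_)
      have hR : n ∈ Rn (X ω) := hall _ (mem_singleton_self _)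
      have hn' := mem_Ico.1 hn
      have hb : n ∈ blk K := mem_blk.2 ⟨by omega, by omega, hn'.2⟩
      have h2 : n ∈ del (Wl ρ) (Rn (X ω)) (Cn (X ω)) :=
        (((H.step.2.2 (Wl ρ) (Rn (X ω)) (Cn (X ω))).2 K).2.2 n hb).2 ⟨hR, fun h => hK' h.1⟩
      exact Finset.disjoint_left.1 hω (mem_tr.2 ⟨mem_low.2 ⟨by omega, hn'.2⟩, h2⟩) hn
  refine (measureReal_mono h1 (measure_ne_top _ _)).trans ((measureReal_union_le _ _).trans ?_)
  rw [hX.prob (Sum.inr K), real_free H hX]
  refine add_le_add le_rfl ?_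
  have h2 : ∏ n ∈ hi K, (1 - pc n) ≤ ∏ _n ∈ hi K, Real.exp (-(1 / ((K : ℝ) + 1))) := by
    refine prod_le_prod (fun n _ => by have := pc_le_one n; linarith) (fun n hn => ?_)
    have hn' := mem_Ico.1 hn
    have h3 : 1 / ((K : ℝ) + 1) ≤ pc n := by
      unfold pc
      rw [if_pos (by omega)]
      have h4 := one_lt_log (n := n) (by omega)
      apply one_div_le_one_div_of_le (by linarith)
      have h5 : Real.log n ≤ Real.log ((2 : ℝ) ^ (K + 1)) := by
        apply Real.log_le_log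
        · have : 0 < n := by omega
          exact_mod_cast this
        · exact_mod_cast hn'.2.le
      rw [Real.log_pow] at h5
      refine h5.trans ?_
      have h6 : Real.log 2 ≤ 1 := by
        have := Real.log_two_lt_d9
        linarith
      push_cast
      have : (0 : ℝ) ≤ (K : ℝ) + 1 := by positivity
      nlinarith
    have := Real.add_one_le_exp (-(1 / ((K : ℝ) + 1)))
    linarith
  refine h2.trans ?_
  rw [prod_const, ← Real.exp_nat_mul]
  have h3 : (hi K).card = 2 ^ (K - 1) := by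
    unfold hi
    rw [Nat.card_Ico]
    omega
  rw [h3]
  push_cast
  have h4 : (0 : ℝ) < 2 ^ (K - 1) / ((K : ℝ) + 1) := by positivity
  have h5 : (2 : ℝ) ^ (K - 1) * -(1 / ((K : ℝ) + 1)) = -(2 ^ (K - 1) / ((K : ℝ) + 1)) := by ring
  rw [h5, Real.exp_neg]
  have h6 : (2 : ℝ) ^ (K - 1) / ((K : ℝ) + 1) ≤ Real.exp (2 ^ (K - 1) / ((K : ℝ) + 1)) := by
    have := Real.add_one_le_exp ((2 : ℝ) ^ (K - 1) / ((K : ℝ) + 1))
    linarith
  rw [inv_le_comm₀ (Real.exp_pos _) (by positivity), inv_div]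
  exact h6

/-- The probabilities: `q k` for `k ≡ ρ`, and `1` at the next scale if `q k ≠ 0`. -/
noncomputable def qq (ρ : ℕ) (q : ℕ → ℝ) (k : ℕ) : ℝ :=
  if k % 2 = ρ then q k else if k ≠ 0 ∧ q (k - 1) ≠ 0 then 1 else 0

theorem qq_mem (ρ : ℕ) {q : ℕ → ℝ} (hq : ∀ k, 0 ≤ q k ∧ q k ≤ 1) (k : ℕ) : 0 ≤ qq ρ q k ∧ qq ρ q k ≤ 1 := by
  unfold qq
  split_ifs
  · exact hq k
  · exact ⟨zero_le_one, le_rfl⟩
  · exact ⟨le_rfl, zero_le_one⟩

/-- Infinitely many blocks with a quarter of exceptions. -/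
theorem some_large (H : Jobs) (m : ℕ → ℕ) (hm4 : ∀ k, 8 ≤ k → 4 * m k ≤ 2 ^ k) (ρ : ℕ) (q : ℕ → ℝ)
    (hq : ∀ k, 0 ≤ q k ∧ q k ≤ 1) {C : ℝ} (hC : 88 ≤ C)
    (hq1 : ∀ k, q k ≠ 0 → 8 ≤ k ∧ k % 2 = ρ ∧ 116 ≤ q k * (C * v k)) (hns : ¬ Summable q) :
    ∃ (Ω : Type) (_ : MeasurableSpace Ω) (μ : Measure Ω) (_ : IsProbabilityMeasure μ) (A : Ω → Set ℕ), IsRandomSet A ∧
      (∀ k, relEntropy μ A (low (k + 1)) ≤ ∑ j ∈ range (k + 1), q j * (C * v j)) ∧
      ∀ᵐ ω ∂μ, ∃ᶠ k in atTop, m k ≤ zero (A ω) k := by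
  classical
  obtain ⟨Ω, mΩ, μ, hμ, X, hX, hA, hent⟩ := construct H (qq ρ q) (qq_mem ρ hq) (Wl ρ)
  have hpar : ∀ k, k % 2 ≠ ρ → q k = 0 := by
    intro k hk
    by_contra h
    exact hk (hq1 k h).2.1
  refine ⟨Ω, mΩ, μ, hμ, _, hA, fun k => ?_, ?_⟩
  · refine (hent (fun j => if j % 2 = ρ then 7 / ((j : ℝ) + 1) * 2 ^ j else
      7 / ((j : ℝ) + 1) * 2 ^ j * (q (j - 1) + (j : ℝ) / 2 ^ (j - 2))) (fun j hj => ?_) k).trans ?_
    · by_cases hjρ : j % 2 = ρ
      · rw [if_pos hjρ]
        refine weight' H hA j _ (fun T hT => ?_)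
        have h1 : ((Wl ρ j T ∩ blk j).card : ℝ) ≤ (blk j).card := by
          exact_mod_cast card_le_card inter_subset_right
        refine h1.trans ?_
        exact_mod_cast card_blk j
      · rw [if_neg hjρ]
        unfold qq at hj
        rw [if_neg hjρ] at hj
        have hj2 : j ≠ 0 ∧ q (j - 1) ≠ 0 := by
          by_contra h
          rw [if_neg h] at hj
          exact lt_irrefl _ hj
        have hj8 := (hq1 (j - 1) hj2.2).1
        have hj9 := (hq1 (j - 1) hj2.2).2.1
        obtain ⟨i, rfl⟩ : ∃ i, j = i + 1 := ⟨j - 1, by omega⟩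
        rw [Nat.add_sub_cancel] at hj8 hj9 hj2 ⊢
        have h1 := hi_free H hX (K := i) (by omega) ρ
        have h2 := real_event hA (low (i + 1)) (μ := μ) (fun T => Disjoint T (hi i))
        rw [h2] at h1
        have h3 : qq ρ q i = q i := by
          unfold qq
          rw [if_pos hj9]
        rw [h3] at h1
        have h4 : ∑ T ∈ (low (i + 1)).powerset, lawOn μ (fun ω => del (Wl ρ) (Rn (X ω)) (Cn (X ω))) (low (i + 1)) T *
            ∑ n ∈ Wl ρ (i + 1) T ∩ blk (i + 1), lam n ≤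
            7 / (((i + 1 : ℕ) : ℝ) + 1) * 2 ^ (i + 1) * ∑ T ∈ (low (i + 1)).powerset with Disjoint T (hi i),
              lawOn μ (fun ω => del (Wl ρ) (Rn (X ω)) (Cn (X ω))) (low (i + 1)) T := by
          rw [sum_filter, mul_sum]
          refine sum_le_sum (fun T _ => ?_)
          by_cases hT : Disjoint T (hi i)
          · rw [if_pos hT, mul_comm (7 / (((i + 1 : ℕ) : ℝ) + 1) * 2 ^ (i + 1))]
            apply mul_le_mul_of_nonneg_left _ (law_nonneg _ _)
            refine (lam_sum H.size (i + 1) _).trans ?_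
            apply mul_le_mul_of_nonneg_left _ (by positivity)
            have h5 : ((Wl ρ (i + 1) T ∩ blk (i + 1)).card : ℝ) ≤ (blk (i + 1)).card := by
              exact_mod_cast card_le_card inter_subset_right
            refine h5.trans ?_
            exact_mod_cast card_blk (i + 1)
          · rw [if_neg hT, mul_zero]
            have h5 : Wl ρ (i + 1) T = ∅ := by
              unfold Wl
              rw [if_neg hjρ, Nat.add_sub_cancel, if_neg hT]
            rw [h5, empty_inter, sum_empty, mul_zero]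
        refine h4.trans ?_
        apply mul_le_mul_of_nonneg_left _ (by positivity)
        have e1 : i + 1 - 2 = i - 1 := by omega
        rw [e1]
        push_cast
        exact h1
    · have h1 : ∀ j, 2 * qq ρ q j * (1 + (if j % 2 = ρ then 7 / ((j : ℝ) + 1) * 2 ^ j else
          7 / ((j : ℝ) + 1) * 2 ^ j * (q (j - 1) + (j : ℝ) / 2 ^ (j - 2)))) ≤
          (if j = 0 then 0 else if q (j - 1) = 0 then 0 else
            2 * (1 + 7 / ((j : ℝ) + 1) * 2 ^ j * (q (j - 1) + (j : ℝ) / 2 ^ (j - 2)))) +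
          q j * (2 + 14 * v j) := by
        intro j
        by_cases hjρ : j % 2 = ρ
        · have h2 : qq ρ q j = q j := by
            unfold qq
            rw [if_pos hjρ]
          rw [if_pos hjρ, h2]
          have h3 : 2 * q j * (1 + 7 / ((j : ℝ) + 1) * 2 ^ j) = q j * (2 + 14 * v j) := by
            unfold v
            ring
          rw [h3]
          have h4 : (0 : ℝ) ≤ (if j = 0 then 0 else if q (j - 1) = 0 then 0 else
            2 * (1 + 7 / ((j : ℝ) + 1) * 2 ^ j * (q (j - 1) + (j : ℝ) / 2 ^ (j - 2)))) := by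
            have := (hq (j - 1)).1
            split_ifs
            · exact le_rfl
            · exact le_rfl
            · positivity
          linarith
        · rw [if_neg hjρ, hpar j hjρ, zero_mul, add_zero]
          unfold qq
          rw [if_neg hjρ]
          by_cases h0 : j = 0
          · rw [if_pos h0, if_neg (by tauto), mul_zero, zero_mul]
          · rw [if_neg h0]
            by_cases h00 : q (j - 1) = 0
            · rw [if_pos h00, if_neg (by tauto), mul_zero, zero_mul]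
            · rw [if_neg h00, if_pos ⟨h0, h00⟩, mul_one]
      refine (sum_le_sum (fun j _ => h1 j)).trans ?_
      rw [sum_add_distrib, sum_range_succ' _ k, if_pos rfl, add_zero]
      have h2 : ∀ j ∈ range k, (if j + 1 = 0 then 0 else if q (j + 1 - 1) = 0 then 0 else
            2 * (1 + 7 / (((j + 1 : ℕ) : ℝ) + 1) * 2 ^ (j + 1) * (q (j + 1 - 1) + ((j + 1 : ℕ) : ℝ) / 2 ^ (j + 1 - 2)))) ≤
          (if q j = 0 then (0 : ℝ) else 58 + 28 * (q j * v j)) := by
        intro j _
        rw [if_neg (Nat.succ_ne_zero j), Nat.add_sub_cancel]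
        by_cases h3 : q j = 0
        · rw [if_pos h3, if_pos h3]
        · rw [if_neg h3, if_neg h3]
          have hj8 := (hq1 j h3).1
          obtain ⟨i, rfl⟩ : ∃ i, j = i + 1 := ⟨j - 1, by omega⟩
          have e1 : i + 1 + 1 - 2 = i := by omega
          rw [e1]
          unfold v
          have h4 := (hq (i + 1)).1
          push_cast
          have hi0 : (0 : ℝ) ≤ i := Nat.cast_nonneg i
          have h5 : 7 / ((i : ℝ) + 1 + 1 + 1) * 2 ^ (i + 1 + 1) * (q (i + 1) + ((i : ℝ) + 1 + 1) / 2 ^ i) =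
              q (i + 1) * (7 / ((i : ℝ) + 1 + 1 + 1) * 2 ^ (i + 1 + 1)) + 28 * (((i : ℝ) + 1 + 1) / ((i : ℝ) + 1 + 1 + 1)) := by
            have h2i : (2 : ℝ) ^ i ≠ 0 := by positivity
            field_simp
            ring
          rw [h5]
          have h6 : ((i : ℝ) + 1 + 1) / ((i : ℝ) + 1 + 1 + 1) ≤ 1 := by
            rw [div_le_one (by positivity)]
            linarith
          have h7 : 7 / ((i : ℝ) + 1 + 1 + 1) * 2 ^ (i + 1 + 1) ≤ 14 * (2 ^ (i + 1) / ((i : ℝ) + 1 + 1)) := by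
            rw [pow_succ (2 : ℝ) (i + 1)]
            have h8 : 7 / ((i : ℝ) + 1 + 1 + 1) ≤ 7 / ((i : ℝ) + 1 + 1) :=
              div_le_div_of_nonneg_left (by norm_num) (by positivity) (by linarith)
            have h9 : (0 : ℝ) ≤ 2 ^ (i + 1) * 2 := by positivity
            refine (mul_le_mul_of_nonneg_right h8 h9).trans (le_of_eq ?_)
            ring
          have h10 := mul_le_mul_of_nonneg_left h7 h4
          linarith
      refine (add_le_add_left (sum_le_sum h2) _).trans ?_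
      have h3 : ∑ j ∈ range k, (if q j = 0 then (0 : ℝ) else 58 + 28 * (q j * v j)) ≤
          ∑ j ∈ range (k + 1), (if q j = 0 then (0 : ℝ) else 58 + 28 * (q j * v j)) := by
        refine sum_le_sum_of_subset_of_nonneg (range_mono (Nat.le_succ k)) (fun j _ _ => ?_)
        split_ifs
        · exact le_rfl
        · have := (hq j).1
          have := one_le_v j
          positivity
      refine (add_le_add_left h3 _).trans ?_
      rw [← sum_add_distrib]
      refine sum_le_sum (fun j _ => ?_)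
      by_cases h4 : q j = 0
      · rw [if_pos h4, h4]
        simp
      · rw [if_neg h4]
        have h5 := (hq1 j h4).2.2
        have h6 := one_le_v j
        have h7 := (hq j).1
        have h8 : q j ≤ q j * v j := le_mul_of_one_le_right h7 h6
        have h9 : 88 * (q j * v j) ≤ C * (q j * v j) := mul_le_mul_of_nonneg_right hC (by linarith)
        have e1 : q j * (C * v j) = C * (q j * v j) := by ring
        rw [e1] at h5 ⊢
        nlinarith
  · have h1 := often' hX (fun K => {Sum.inr K}) 8 (fun i j _ _ hij => Set.disjoint_singleton.2 (fun h => hij (Sum.inr_injective h)))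
      (fun K => if q K = 0 then ∅ else {ω | Sum.inr K ∈ X ω}) (fun K => by
        by_cases hqK : q K = 0
        · rw [if_pos hqK]
          exact @MeasurableSet.empty _ (F X _)
        · rw [if_neg hqK]
          exact F_mem rfl) hns (Eventually.of_forall (fun K => by
        by_cases hqK : q K = 0
        · rw [if_pos hqK, hqK]
          simp
        · rw [if_neg hqK, abs_of_nonneg (hq K).1, hX.prob (Sum.inr K), Sum.elim_inr]
          unfold qq
          rw [if_pos (hq1 K hqK).2.1]))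
    have h2 : ∀ᵐ ω ∂μ, ∀ K, qq ρ q K = 1 → K ∈ Cn (X ω) := by
      rw [ae_all_iff]
      intro K
      by_cases h : qq ρ q K = 1
      · filter_upwards [scale_one hX h] with ω hω
        intro _
        exact hω
      · exact Eventually.of_forall (fun ω h' => absurd h' h)
    filter_upwards [h1, h2] with ω hω hω2
    have h3 : ∃ᶠ K in atTop, m (K + 1) ≤ zero (del (Wl ρ) (Rn (X ω)) (Cn (X ω))) (K + 1) := by
      refine hω.mono (fun K hK => ?_)
      by_cases hqK : q K = 0
      · rw [if_pos hqK] at hK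
        exact absurd hK (Set.notMem_empty _)
      · rw [if_neg hqK] at hK
        obtain ⟨hK8, hKρ, _⟩ := hq1 K hqK
        have h4 : K + 1 ∈ Cn (X ω) := by
          apply hω2
          unfold qq
          rw [if_neg (by omega), if_pos ⟨Nat.succ_ne_zero K, by rw [Nat.add_sub_cancel]; exact hqK⟩]
        have h5 := large_zero H ρ (Rn (X ω)) (Cn (X ω)) hKρ (by omega) hK h4
        have h6 := hm4 (K + 1) (by omega)
        have e3 : 2 ^ (K + 1) = 4 * 2 ^ (K - 1) := by
          obtain ⟨i', rfl⟩ : ∃ i', K = i' + 1 := ⟨K - 1, by omega⟩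
          rw [Nat.add_sub_cancel]
          ring
        omega
    exact (tendsto_add_atTop_nat 1).frequently h3

end Pool.Agent.Q120.GE
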