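import Pool.Agent.Q120.GE.Phase

/-!
# Project GE: the theorem, from the jobs
-/

set_option autoImplicit false

namespace Pool.Agent.Q120.GE

open Finset MeasureTheory Filter Pool.Agent.Q120.ET Pool.Agent.Q120.GM
open scoped Topology

/-! ## A random set with `m` exceptions in one block -/

theorem sum_v (k : ℕ) : ∑ j ∈ range (k + 1), v j ≤ 4 * v k := by
  induction k with
  | zero =>
    rw [sum_range_one]
    have := one_le_v 0
    linarith
  | succ k ih =>
    rw [sum_range_succ]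
    rcases Nat.eq_zero_or_pos k with h | h
    · subst h
      rw [sum_range_one]
      unfold v
      norm_num
    · have h1 : 4 * v k ≤ 3 * v (k + 1) := by
        unfold v
        have hk : (1 : ℝ) ≤ k := by exact_mod_cast h
        push_cast
        rw [← mul_div_assoc, ← mul_div_assoc, div_le_div_iff₀ (by positivity) (by positivity)]
        have h2 : (0 : ℝ) < 2 ^ k := by positivity
        rw [pow_succ (2 : ℝ) k]
        nlinarith
      linarith

theorem exists_few (H : Jobs) {C : ℝ} (hC0 : 0 < C) (hC : ∀ (Ω : Type) [MeasurableSpace Ω] (μ : Measure Ω) [IsProbabilityMeasure μ]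
    (A R : Ω → Set ℕ), IsRandomSet A → IsModel μ pc R → (∀ ω, A ω ⊆ R ω) → ∀ k : ℕ,
      ∑ T ∈ (low k).powerset, lawOn μ A (low k) T * T.card ≤ C * 2 ^ k / (k + 1)) {k m : ℕ} (hk : 2 ≤ k) (hm : 1 ≤ m)
    (hmk : m ≤ k) (hm4 : 4 * m ≤ 2 ^ k) :
    ∃ (Ω : Type) (_ : MeasurableSpace Ω) (μ : Measure Ω) (_ : IsProbabilityMeasure μ) (A : Ω → Set ℕ), IsRandomSet A ∧
      relEntropy μ A (low (k + 1)) ≤ (500 + 14 * C) * cost k m ∧ ∀ᵐ ω ∂μ, m ≤ zero (A ω) k := by
  classical
  obtain ⟨q, hq⟩ : ∃ q : ℕ → ℝ, q = fun j => if j = k ∨ j + 1 = k then 1 else 0 := ⟨_, rfl⟩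
  have hq01 : ∀ j, 0 ≤ q j ∧ q j ≤ 1 := by
    intro j
    rw [hq]
    dsimp only
    split_ifs
    · exact ⟨zero_le_one, le_rfl⟩
    · exact ⟨le_rfl, zero_le_one⟩
  obtain ⟨Ω, mΩ, μ, hμ, X, hX, hA, hent⟩ := construct H q hq01 (Wb k m)
  have hqk : q k = 1 := by
    rw [hq]
    exact if_pos (Or.inl rfl)
  have hqk' : q (k - 1) = 1 := by
    rw [hq]
    exact if_pos (Or.inr (by omega))
  have hga := H.ga H.step
  refine ⟨Ω, mΩ, μ, hμ, _, hA, ?_, ?_⟩
  · have h1 := hent (fun j => if j = k then 7 / ((j : ℝ) + 1) * (1 + m * (C * 2 ^ j / (j + 1))) else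
      7 / ((j : ℝ) + 1) * (2 * m)) (fun j hj => ?_) k
    · refine h1.trans ?_
      obtain ⟨i, rfl⟩ : ∃ i, k = i + 2 := ⟨k - 2, by omega⟩
      rw [sum_range_succ, sum_range_succ]
      have h2 : ∑ x ∈ range (i + 1), 2 * q x * (1 + if x = i + 2 then 7 / ((x : ℝ) + 1) * (1 + m * (C * 2 ^ x / (x + 1))) else
          7 / ((x : ℝ) + 1) * (2 * m)) = 0 := by
        refine sum_eq_zero (fun x hx => ?_)
        rw [mem_range] at hx
        have : q x = 0 := by
          rw [hq]
          exact if_neg (by omega)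
        rw [this]
        ring
      have e1 : i + 2 - 1 = i + 1 := by omega
      rw [e1] at hqk'
      rw [h2, hqk, hqk', if_pos rfl, if_neg (by omega)]
      have hm0 : (1 : ℝ) ≤ m := by exact_mod_cast hm
      have hmk0 : (m : ℝ) ≤ ((i + 2 : ℕ) : ℝ) := by exact_mod_cast hmk
      have hcost : cost (i + 2) m = 2 ^ (i + 2) * m / (((i + 2 : ℕ) : ℝ)) ^ 2 := by
        unfold cost
        have h0 : (0 : ℝ) < ((i + 2 : ℕ) : ℝ) := by positivity
        rw [min_eq_left, mul_div_assoc]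
        rw [div_le_div_iff₀ (by positivity) h0]
        nlinarith
      rw [hcost]
      push_cast
      push_cast at hmk0
      have hi0 : (0 : ℝ) ≤ i := Nat.cast_nonneg i
      have h3 : ((i : ℝ) + 2) ^ 2 ≤ 4 * (2 ^ (i + 2)) := by
        have h4 : (((i + 2 : ℕ) : ℝ) + 1) ^ 2 ≤ 4 * 2 ^ (i + 2) := by exact_mod_cast sq_le_pow (i + 2)
        push_cast at h4
        nlinarith
      obtain ⟨P, hP⟩ : ∃ P : ℝ, P = 2 ^ (i + 2) * m / ((i : ℝ) + 2) ^ 2 := ⟨_, rfl⟩
      have h5 : 1 ≤ 4 * P := by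
        rw [hP, ← mul_div_assoc, le_div_iff₀ (by positivity), one_mul]
        have : (0 : ℝ) < 2 ^ (i + 2) := by positivity
        nlinarith
      have h6 : (m : ℝ) / ((i : ℝ) + 2) ≤ P := by
        rw [hP, div_le_div_iff₀ (by positivity) (by positivity)]
        have h7 : (i : ℝ) + 2 ≤ 2 ^ (i + 2) := by
          have : i + 2 + 1 ≤ 2 ^ (i + 2) := succ_le_pow (i + 2)
          have h8 : ((i + 2 + 1 : ℕ) : ℝ) ≤ ((2 ^ (i + 2) : ℕ) : ℝ) := by exact_mod_cast this
          push_cast at h8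
          linarith
        have h9 : (0 : ℝ) ≤ m * ((i : ℝ) + 2) := by positivity
        have := mul_le_mul_of_nonneg_left h7 h9
        nlinarith
      have h7 : (m : ℝ) * (C * 2 ^ (i + 2) / ((i : ℝ) + 2 + 1)) * (7 / ((i : ℝ) + 2 + 1)) ≤ 7 * C * P := by
        have h8 : (m : ℝ) * (C * 2 ^ (i + 2) / ((i : ℝ) + 2 + 1)) * (7 / ((i : ℝ) + 2 + 1)) =
            7 * C * (2 ^ (i + 2) * m / ((i : ℝ) + 2 + 1) ^ 2) := by
          field_simp
        rw [h8]
        apply mul_le_mul_of_nonneg_left _ (by positivity)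
        rw [hP]
        exact div_le_div_of_nonneg_left (by positivity) (by positivity) (by nlinarith)
      have h8 : 7 / ((i : ℝ) + 2 + 1) ≤ 7 := by
        rw [div_le_iff₀ (by positivity)]
        linarith
      have h9 : 7 / ((i : ℝ) + 1 + 1) * (2 * m) ≤ 14 * P := by
        have : 7 / ((i : ℝ) + 1 + 1) * (2 * m) = 14 * (m / ((i : ℝ) + 2)) := by
          field_simp
          ring
        rw [this]
        linarith
      rw [← hP]
      nlinarith
    · rcases eq_or_ne j k with hjk | hjk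
      · rw [if_pos hjk]
        refine weight H hC hA (model_R hX) (fun ω => del_sub H _ _ _) j _ (Nat.cast_nonneg _) (fun T hT => ?_)
        have h0 : 0 ∉ T := by
          intro h
          have := (mem_low.1 (hT h)).1
          omega
        rw [hjk]
        have h2 := hga.2.2.2.1 k m T h0
        have h3 : ((Wb k m k T ∩ blk k).card : ℝ) ≤ (Wb k m k T).card := by
          exact_mod_cast card_le_card inter_subset_left
        refine h3.trans ?_
        exact_mod_cast h2
      · rw [if_neg hjk]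
        refine weight' H hA j _ (fun T hT => ?_)
        have h3 : ((Wb k m j T ∩ blk j).card : ℝ) ≤ (Wb k m j T).card := by
          exact_mod_cast card_le_card inter_subset_left
        refine h3.trans ?_
        unfold Wb
        rw [if_neg hjk]
        split_ifs with h4
        · rw [Nat.card_Ico]
          have : 2 ^ k - (2 ^ k - 2 * m) ≤ 2 * m := by omega
          exact_mod_cast this
        · rw [card_empty]
          push_cast
          positivity
  · filter_upwards [scale_one hX hqk, scale_one hX hqk'] with ω h1 h2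
    exact hga.2.2.1 (Rn (X ω)) (Cn (X ω)) k m hk hm hm4 h1 h2

theorem exists_many (H : Jobs) {k m : ℕ} (hk : 6 ≤ k) (hmk : k < m) (hm4 : 4 * m ≤ 2 ^ k) :
    ∃ (Ω : Type) (_ : MeasurableSpace Ω) (μ : Measure Ω) (_ : IsProbabilityMeasure μ) (A : Ω → Set ℕ), IsRandomSet A ∧
      relEntropy μ A (low (k + 1)) ≤ 500 * cost k m ∧ ∀ᵐ ω ∂μ, m ≤ zero (A ω) k := by
  classical
  obtain ⟨Ω, mΩ, μ, hμ, X, hX, hA, hent⟩ := construct H (fun _ => 1) (fun _ => ⟨zero_le_one, le_rfl⟩)
    (fun j _ => (blk j).filter (fun n => n % 3 ≠ 1))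
  have hga := H.ga H.step
  refine ⟨Ω, mΩ, μ, hμ, _, hA, ?_, ?_⟩
  · have h1 := hent (fun j => 7 / ((j : ℝ) + 1) * 2 ^ j) (fun j hj => ?_) k
    · refine h1.trans ?_
      have h2 : ∀ j ∈ range (k + 1), 2 * (1 : ℝ) * (1 + 7 / ((j : ℝ) + 1) * 2 ^ j) ≤ 16 * v j := by
        intro j _
        have h3 := one_le_v j
        have h4 : 7 / ((j : ℝ) + 1) * 2 ^ j = 7 * v j := by
          unfold v
          ring
        rw [h4]
        linarith
      refine (sum_le_sum h2).trans ?_
      rw [← mul_sum]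
      have h3 := sum_v k
      have hcost : v k ≤ cost k m := by
        unfold cost v
        have hk0 : (6 : ℝ) ≤ k := by exact_mod_cast hk
        have hmk0 : (k : ℝ) ≤ m := by exact_mod_cast hmk.le
        rw [min_eq_right, mul_one_div]
        · exact div_le_div_of_nonneg_left (by positivity) (by linarith) (by linarith)
        · rw [div_le_div_iff₀ (by linarith) (by positivity)]
          nlinarith
      have h4 : 0 ≤ v k := by
        have := one_le_v k
        linarith
      linarith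
    · refine weight' H hA j _ (fun T hT => ?_)
      have h3 : ((((blk j).filter (fun n => n % 3 ≠ 1)) ∩ blk j).card : ℝ) ≤ (blk j).card := by
        exact_mod_cast card_le_card inter_subset_right
      refine h3.trans ?_
      exact_mod_cast card_blk j
  · have h2 : ∀ᵐ ω ∂μ, ∀ j, j ∈ Cn (X ω) := by
      rw [ae_all_iff]
      intro j
      exact scale_one hX rfl
    filter_upwards [h2] with ω hω
    have h3 := hga.2.2.2.2 (del (fun j _ => (blk j).filter (fun n => n % 3 ≠ 1)) (Rn (X ω)) (Cn (X ω))) k hk (by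
      intro n hn h3n
      obtain ⟨j, hj⟩ := H.step.2.1 n h3n
      by_contra h
      apply (((((H.step.2.2 (fun j _ => (blk j).filter (fun n => n % 3 ≠ 1)) (Rn (X ω)) (Cn (X ω))).2 j).2.2 n hj).1 hn)).2
      exact ⟨hω j, mem_filter.2 ⟨hj, h⟩⟩)
    omega

/-- (2) A random set with `m` exceptions. -/
theorem part_two (H : Jobs) : ∃ C : ℝ, 0 < C ∧ ∀ k m : ℕ, 6 ≤ k → 1 ≤ m → 4 * m ≤ 2 ^ k →
    ∃ (Ω : Type) (_ : MeasurableSpace Ω) (μ : Measure Ω) (_ : IsProbabilityMeasure μ) (A : Ω → Set ℕ), IsRandomSet A ∧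
      relEntropy μ A (low (k + 1)) ≤ C * cost k m ∧ ∀ᵐ ω ∂μ, m ≤ zero (A ω) k := by
  obtain ⟨hsz, C, hC0, hC1, hC⟩ := H.size
  refine ⟨500 + 14 * C, by positivity, fun k m hk hm hm4 => ?_⟩
  rcases Nat.lt_or_ge k m with h | h
  · obtain ⟨Ω, mΩ, μ, hμ, A, h1, h2, h3⟩ := exists_many H hk h hm4
    refine ⟨Ω, mΩ, μ, hμ, A, h1, h2.trans ?_, h3⟩
    have := cost_pos (k := k) (m := m) (by omega) hm
    apply mul_le_mul_of_nonneg_right _ this.le
    linarith
  · exact exists_few H hC0 hC (by omega) hm h hm4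

/-! ## The powers of two -/

theorem powers (H : Jobs) {d : ℕ → ℝ} (hd : Monotone d) (hd0 : ∀ k, 0 ≤ d k)
    (hs : ¬ Summable (fun k : ℕ => d k * k ^ 2 / 2 ^ k)) :
    SomeSet d (fun S => ∃ᶠ k in atTop, rep S (2 ^ (k + 1)) = 0) := by
  classical
  obtain ⟨hsz, C, hC0, hC1, hC⟩ := H.size
  have hns : ¬ Summable (fun k : ℕ => d k * (k + 1) ^ 2 / 2 ^ k) := by
    intro h
    apply hs
    refine h.of_nonneg_of_le (fun k => ?_) (fun k => ?_)
    · have := hd0 k
      positivity
    · apply div_le_div_of_nonneg_right _ (by positivity)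
      apply mul_le_mul_of_nonneg_left _ (hd0 k)
      have : (0 : ℝ) ≤ k := Nat.cast_nonneg k
      nlinarith
  obtain ⟨q, hq, hqns, hqd⟩ := H.seq d (88 + 14 * C) hd hd0 (by positivity) hns
  obtain ⟨Ω, mΩ, μ, hμ, X, hX, hA, hent⟩ := construct H q hq Wa
  have hga := H.ga H.step
  refine ⟨Ω, mΩ, μ, hμ, _, hA, fun k => ?_, ?_⟩
  · refine (hent (fun j => 7 / ((j : ℝ) + 1) * (1 + 1 * (C * 2 ^ j / (j + 1)))) (fun j hj => ?_) k).trans
      (le_trans ?_ (hqd k))
    · refine weight H hC hA (model_R hX) (fun ω => del_sub H _ _ _) j _ zero_le_one (fun T hT => ?_)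
      have h2 := hga.2.1 j T
      have h3 : ((Wa j T ∩ blk j).card : ℝ) ≤ (Wa j T).card := by
        exact_mod_cast card_le_card inter_subset_left
      refine h3.trans ?_
      rw [one_mul]
      exact_mod_cast h2
    · refine sum_le_sum (fun j _ => ?_)
      have h1 : 2 * q j * (1 + 7 / ((j : ℝ) + 1) * (1 + 1 * (C * 2 ^ j / (j + 1)))) =
          q j * (2 + 14 / ((j : ℝ) + 1) + 14 * C * (2 ^ j / (j + 1) ^ 2)) := by
        field_simp
        ring
      rw [h1]
      apply mul_le_mul_of_nonneg_left _ (hq j).1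
      have h2 : 14 / ((j : ℝ) + 1) ≤ 14 := by
        rw [div_le_iff₀ (by positivity)]
        have : (0 : ℝ) ≤ j := Nat.cast_nonneg j
        linarith
      have h3 : (1 : ℝ) ≤ 4 * (2 ^ j / ((j : ℝ) + 1) ^ 2) := by
        rw [← mul_div_assoc, le_div_iff₀ (by positivity), one_mul]
        exact_mod_cast sq_le_pow j
      have h4 : (88 + 14 * C) * 2 ^ j / ((j : ℝ) + 1) ^ 2 = 88 * (2 ^ j / ((j : ℝ) + 1) ^ 2) + 14 * C * (2 ^ j / (j + 1) ^ 2) := by
        ring
      rw [h4]
      linarith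
  · filter_upwards [scales_often hX hqns] with ω hω
    exact hω.mono (fun k hk => hga.1 _ _ k hk)

/-! ## The theorem -/

theorem zero_le_exc (S : Set ℕ) (k : ℕ) : zero S k ≤ exc (1 / 100) S k := by
  classical
  unfold zero exc
  refine card_le_card (fun n hn => ?_)
  rw [mem_filter] at hn ⊢
  refine ⟨hn.1, ?_⟩
  rw [hn.2.2]
  unfold main
  push_cast
  positivity

theorem cost_one (k : ℕ) (d : ℝ) : d / cost k 1 = d * k ^ 2 / 2 ^ k := by
  unfold cost
  rcases Nat.eq_zero_or_pos k with h | h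
  · subst h
    simp
  · have hk : (1 : ℝ) ≤ k := by exact_mod_cast h
    rw [min_eq_left]
    · push_cast
      field_simp
    · push_cast
      apply one_div_le_one_div_of_le (by linarith)
      nlinarith

theorem part_three (H : Jobs) {d : ℕ → ℝ} (hd : Monotone d) (hd0 : ∀ k, 0 ≤ d k) {m : ℕ → ℕ} (hm : Monotone m)
    (hm1 : ∀ k, 1 ≤ m k) (hm4 : ∀ᶠ k in atTop, 4 * m k ≤ 2 ^ k) :
    (Summable (fun k => d k / cost k (m k)) ↔ AllSets d (fun S => ∀ᶠ k in atTop, exc (1 / 100) S k < m k)) ∧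
    (Summable (fun k => d k / cost k (m k)) ↔ AllSets d (fun S => ∀ᶠ k in atTop, zero S k < m k)) ∧
    (¬ Summable (fun k => d k / cost k (m k)) → SomeSet d (fun S => ∃ᶠ k in atTop, m k ≤ zero S k)) := by
  have h1 : Summable (fun k => d k / cost k (m k)) → AllSets d (fun S => ∀ᶠ k in atTop, exc (1 / 100) S k < m k) :=
    phase_pos H hm1
  have h2 : AllSets d (fun S => ∀ᶠ k in atTop, exc (1 / 100) S k < m k) → AllSets d (fun S => ∀ᶠ k in atTop, zero S k < m k) :=
    fun h => h.mono (fun S hS => hS.mono (fun k hk => (zero_le_exc S k).trans_lt hk))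
  have h3 : ¬ Summable (fun k => d k / cost k (m k)) → SomeSet d (fun S => ∃ᶠ k in atTop, m k ≤ zero S k) := by
    intro hs
    obtain ⟨K, hK⟩ := eventually_atTop.1 hm4
    obtain ⟨m', hm'⟩ : ∃ m' : ℕ → ℕ, m' = fun k => if k < K then 1 else m k := ⟨_, rfl⟩
    have hmm : ∀ k, K ≤ k → m' k = m k := by
      intro k hk
      rw [hm']
      exact if_neg (by omega)
    have hmm1 : ∀ k, 1 ≤ m' k := by
      intro k
      rw [hm']
      dsimp only
      split_ifs
      · exact le_rfl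
      · exact hm1 k
    have h4 := phase_neg H hd hd0 (m := m') (by
      intro i j hij
      rcases Nat.lt_or_ge i K with h | h
      · have : m' i = 1 := by
          rw [hm']
          exact if_pos h
        rw [this]
        exact hmm1 j
      · rw [hmm i h, hmm j (h.trans hij)]
        exact hm hij) hmm1 (by
      intro k hk
      rcases Nat.lt_or_ge k K with h | h
      · have h5 : m' k = 1 := by
          rw [hm']
          exact if_pos h
        rw [h5]
        have : (2 : ℕ) ^ 8 ≤ 2 ^ k := Nat.pow_le_pow_right (by norm_num) hk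
        omega
      · rw [hmm k h]
        exact hK k h) (by
      intro hs'
      apply hs
      refine Summable.of_norm_bounded_eventually_nat hs' ?_
      filter_upwards [eventually_ge_atTop K, eventually_ge_atTop 1] with k hk hk1
      have := cost_pos (k := k) (m := m k) hk1 (hm1 k)
      rw [Real.norm_eq_abs, abs_of_nonneg (div_nonneg (hd0 k) this.le), hmm k hk])
    obtain ⟨Ω, mΩ, μ, hμ, A, hA, hA1, hA2⟩ := h4
    refine ⟨Ω, mΩ, μ, hμ, A, hA, hA1, ?_⟩
    filter_upwards [hA2] with ω hω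
    refine (hω.and_eventually (eventually_ge_atTop K)).mono ?_
    rintro k ⟨h5, h6⟩
    rw [← hmm k h6]
    exact h5
  have h4 : AllSets d (fun S => ∀ᶠ k in atTop, zero S k < m k) → Summable (fun k => d k / cost k (m k)) := by
    intro h
    by_contra hs
    refine not_all (h3 hs) (fun S hS hS2 => ?_) h
    obtain ⟨k, hk1, hk2⟩ := (hS.and_eventually hS2).exists
    exact absurd hk2 (not_lt.2 hk1)
  exact ⟨⟨h1, fun h => h4 (h2 h)⟩, ⟨fun h => h2 (h1 h), h4⟩, h3⟩

theorem part_four (H : Jobs) {d : ℕ → ℝ} (hd : Monotone d) (hd0 : ∀ k, 0 ≤ d k) :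
    (Summable (fun k : ℕ => d k * k ^ 2 / 2 ^ k) ↔
      AllSets d (fun S => ∀ ε : ℝ, 0 < ε → ∀ᶠ n : ℕ in atTop, |(rep S n : ℝ) - main n| ≤ ε * main n)) ∧
    (Summable (fun k : ℕ => d k * k ^ 2 / 2 ^ k) ↔
      AllSets d (fun S => ∃ δ : ℝ, 0 < δ ∧ ∀ᶠ n : ℕ in atTop, Even n → δ * main n ≤ rep S n)) ∧
    (Summable (fun k : ℕ => d k * k ^ 2 / 2 ^ k) ↔ AllSets d (fun S => ∀ᶠ n : ℕ in atTop, Even n → 0 < rep S n)) ∧
    (¬ Summable (fun k : ℕ => d k * k ^ 2 / 2 ^ k) → SomeSet d (fun S => ∃ᶠ k in atTop, rep S (2 ^ (k + 1)) = 0)) := by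
  have h1 : Summable (fun k : ℕ => d k * k ^ 2 / 2 ^ k) →
      AllSets d (fun S => ∀ ε : ℝ, 0 < ε → ∀ᶠ n : ℕ in atTop, |(rep S n : ℝ) - main n| ≤ ε * main n) :=
    fun hs Ω _ μ _ A hA hdA => H.sum H.mom H.dev H.law H.ent Ω μ A hA d hdA hs
  have h2 : AllSets d (fun S => ∀ ε : ℝ, 0 < ε → ∀ᶠ n : ℕ in atTop, |(rep S n : ℝ) - main n| ≤ ε * main n) →
      AllSets d (fun S => ∃ δ : ℝ, 0 < δ ∧ ∀ᶠ n : ℕ in atTop, Even n → δ * main n ≤ rep S n) := by
    refine fun h => h.mono (fun S hS => ⟨1 / 2, by norm_num, ?_⟩)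
    filter_upwards [hS (1 / 2) (by norm_num)] with n hn
    intro _
    have := (abs_le.1 hn).1
    linarith
  have h3 : AllSets d (fun S => ∃ δ : ℝ, 0 < δ ∧ ∀ᶠ n : ℕ in atTop, Even n → δ * main n ≤ rep S n) →
      AllSets d (fun S => ∀ᶠ n : ℕ in atTop, Even n → 0 < rep S n) := by
    refine fun h => h.mono (fun S hS => ?_)
    obtain ⟨δ, hδ, hS⟩ := hS
    filter_upwards [hS, eventually_ge_atTop 3] with n hn hn3
    intro he
    have h4 := one_lt_log hn3
    have h5 : 0 < main n := by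
      unfold main
      have : (0 : ℝ) < n := by
        have : 0 < n := by omega
        exact_mod_cast this
      positivity
    have h6 : (0 : ℝ) < rep S n := (mul_pos hδ h5).trans_le (hn he)
    exact_mod_cast h6
  have h4 : ¬ Summable (fun k : ℕ => d k * k ^ 2 / 2 ^ k) → SomeSet d (fun S => ∃ᶠ k in atTop, rep S (2 ^ (k + 1)) = 0) :=
    powers H hd hd0
  have h5 : AllSets d (fun S => ∀ᶠ n : ℕ in atTop, Even n → 0 < rep S n) → Summable (fun k : ℕ => d k * k ^ 2 / 2 ^ k) := by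
    intro h
    by_contra hs
    refine not_all (h4 hs) (fun S hS hS2 => ?_) h
    have h6 : Tendsto (fun k : ℕ => 2 ^ (k + 1)) atTop atTop :=
      (tendsto_pow_atTop_atTop_of_one_lt (by norm_num : 1 < 2)).comp (tendsto_add_atTop_nat 1)
    obtain ⟨k, hk1, hk2⟩ := (hS.and_eventually (h6.eventually hS2)).exists
    have h7 := hk2 ⟨2 ^ k, by ring⟩
    omega
  exact ⟨⟨h1, fun h => h5 (h3 (h2 h))⟩, ⟨fun h => h2 (h1 h), fun h => h5 (h3 h)⟩, ⟨fun h => h3 (h2 (h1 h)), h5⟩, h4⟩

end Pool.Agent.Q120.GE
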