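import Pool.Agent.Q120.GE.Large

/-!
# Project GE: the phase diagram
-/

set_option autoImplicit false

namespace Pool.Agent.Q120.GE

open Finset MeasureTheory Filter Pool.Agent.Q120.ET Pool.Agent.Q120.GM
open scoped Topology

/-- All random sets whose relative entropies are at most `d k` have almost surely the property `P`. -/
def AllSets (d : ℕ → ℝ) (P : Set ℕ → Prop) : Prop :=
  ∀ (Ω : Type) [MeasurableSpace Ω] (μ : Measure Ω) [IsProbabilityMeasure μ] (A : Ω → Set ℕ), IsRandomSet A →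
    (∀ᶠ k : ℕ in atTop, relEntropy μ A (low (k + 1)) ≤ d k) → ∀ᵐ ω ∂μ, P (A ω)

/-- A random set whose relative entropies are at most `d k` has almost surely the property `P`. -/
def SomeSet (d : ℕ → ℝ) (P : Set ℕ → Prop) : Prop :=
  ∃ (Ω : Type) (_ : MeasurableSpace Ω) (μ : Measure Ω) (_ : IsProbabilityMeasure μ) (A : Ω → Set ℕ), IsRandomSet A ∧
    (∀ k : ℕ, relEntropy μ A (low (k + 1)) ≤ d k) ∧ ∀ᵐ ω ∂μ, P (A ω)

theorem not_all {d : ℕ → ℝ} {P Q : Set ℕ → Prop} (h : SomeSet d P) (hPQ : ∀ S, P S → ¬ Q S) : ¬ AllSets d Q := by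
  intro hall
  obtain ⟨Ω, mΩ, μ, hμ, A, hA, hd, hP⟩ := h
  have h1 := hall Ω μ A hA (Eventually.of_forall hd)
  have h2 : ∀ᵐ _ω ∂μ, False := by
    filter_upwards [h1, hP] with ω h3 h4
    exact hPQ _ h4 h3
  rw [eventually_false_iff_eq_bot, ae_eq_bot] at h2
  have h3 : μ Set.univ = 1 := measure_univ
  rw [h2] at h3
  simp at h3

theorem AllSets.mono {d : ℕ → ℝ} {P Q : Set ℕ → Prop} (h : AllSets d P) (hPQ : ∀ S, P S → Q S) : AllSets d Q := by
  intro Ω _ μ _ A hA hd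
  filter_upwards [h Ω μ A hA hd] with ω hω
  exact hPQ _ hω

theorem cost_ge {k m : ℕ} (hk : 1 ≤ k) (hm : 1 ≤ m) : 2 ^ k / (k : ℝ) ^ 2 ≤ cost k m := by
  unfold cost
  rw [div_eq_mul_one_div]
  apply mul_le_mul_of_nonneg_left _ (by positivity)
  have hk0 : (1 : ℝ) ≤ k := by exact_mod_cast hk
  have hm0 : (1 : ℝ) ≤ m := by exact_mod_cast hm
  refine le_min ?_ ?_
  · exact div_le_div_of_nonneg_right hm0 (by positivity)
  · apply one_div_le_one_div_of_le (by linarith)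
    nlinarith

theorem summable_sq : Summable (fun k : ℕ => (k : ℝ) ^ 2 / 2 ^ k) := by
  have h1 := summable_pow_mul_geometric_of_norm_lt_one (R := ℝ) 2 (r := 1 / 2) (by rw [Real.norm_eq_abs]; norm_num [abs_of_pos])
  refine h1.congr (fun k => ?_)
  rw [one_div, inv_pow, div_eq_mul_inv]

/-- (3a) -/
theorem phase_pos (H : Jobs) {d : ℕ → ℝ} {m : ℕ → ℕ} (hm1 : ∀ k, 1 ≤ m k)
    (hs : Summable (fun k => d k / cost k (m k))) : AllSets d (fun S => ∀ᶠ k in atTop, exc (1 / 100) S k < m k) := by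
  obtain ⟨K₀, hK₀, h1⟩ := part_one H.law H.thin H.jan H.exc H.ent
  intro Ω _ μ _ A hA hd
  have h2 : Summable (fun k => 1 / cost k (m k)) := by
    refine Summable.of_norm_bounded_eventually_nat summable_sq ?_
    filter_upwards [eventually_ge_atTop 1] with k hk
    have h3 := cost_ge hk (hm1 k)
    have hk0 : (0 : ℝ) < k := by exact_mod_cast hk
    have h4 : 0 < 2 ^ k / (k : ℝ) ^ 2 := by positivity
    rw [Real.norm_eq_abs, abs_of_nonneg (by have := h4.trans_le h3; positivity)]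
    refine (one_div_le_one_div_of_le h4 h3).trans (le_of_eq ?_)
    rw [one_div, inv_div]
  have h3 := bc (μ := μ) (B := fun k => {ω | m k ≤ exc (1 / 100) (A ω) k})
    (g := fun k => 40000 * (1 / cost k (m k) + d k / cost k (m k))) ((h2.add hs).mul_left 40000) (by
    filter_upwards [hd, eventually_ge_atTop K₀] with k hk hk2
    refine (h1 k hk2 (m k) (hm1 k) Ω μ A hA).trans ?_
    have h4 := cost_pos (k := k) (m := m k) (by omega) (hm1 k)
    rw [← add_div, mul_div_assoc]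
    apply mul_le_mul_of_nonneg_left _ (by norm_num)
    exact div_le_div_of_nonneg_right (by linarith) h4.le)
  filter_upwards [h3] with ω hω
  filter_upwards [hω] with k hk
  exact not_le.1 hk

/-- The modified cost. -/
noncomputable def cw (k m : ℕ) : ℝ := 2 ^ k * min ((m : ℝ) / ((k : ℝ) + 1) ^ 2) (1 / ((k : ℝ) + 1))

theorem cw_pos {k m : ℕ} (hm : 1 ≤ m) : 0 < cw k m := by
  unfold cw
  have hm0 : (0 : ℝ) < m := by exact_mod_cast hm
  exact mul_pos (by positivity) (lt_min (by positivity) (by positivity))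

theorem cw_le_cost {k m : ℕ} (hk : 1 ≤ k) : cw k m ≤ cost k m := by
  unfold cw cost
  apply mul_le_mul_of_nonneg_left _ (by positivity)
  have hk0 : (1 : ℝ) ≤ k := by exact_mod_cast hk
  have hm0 : (0 : ℝ) ≤ m := Nat.cast_nonneg m
  refine min_le_min ?_ ?_
  · exact div_le_div_of_nonneg_left hm0 (by positivity) (by gcongr; linarith)
  · exact one_div_le_one_div_of_le (by linarith) (by linarith)

theorem cw_small {k m : ℕ} (h : m ≤ k + 1) : cw k m = 2 ^ k * m / ((k : ℝ) + 1) ^ 2 := by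
  unfold cw
  rw [min_eq_left, mul_div_assoc]
  have hm0 : (m : ℝ) ≤ k + 1 := by exact_mod_cast h
  rw [div_le_div_iff₀ (by positivity) (by positivity)]
  nlinarith

theorem cw_large {k m : ℕ} (h : k + 1 < m) : cw k m = v k := by
  unfold cw v
  rw [min_eq_right, mul_one_div]
  have hm0 : (k : ℝ) + 1 ≤ m := by exact_mod_cast h.le
  rw [div_le_div_iff₀ (by positivity) (by positivity)]
  nlinarith

theorem cw_grow {m : ℕ → ℕ} (hm : Monotone m) {k : ℕ} (hk : 4 ≤ k) :
    4 / 3 * cw k (m k) ≤ cw (k + 1) (m (k + 1)) := by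
  unfold cw
  have hk0 : (4 : ℝ) ≤ k := by exact_mod_cast hk
  have h1 : (m k : ℝ) ≤ m (k + 1) := by exact_mod_cast hm (Nat.le_succ k)
  have hm0 : (0 : ℝ) ≤ m k := Nat.cast_nonneg _
  have h2 : 4 / 3 * (2 ^ k * min ((m k : ℝ) / ((k : ℝ) + 1) ^ 2) (1 / ((k : ℝ) + 1))) =
      2 ^ (k + 1) * (2 / 3 * min ((m k : ℝ) / ((k : ℝ) + 1) ^ 2) (1 / ((k : ℝ) + 1))) := by ring
  rw [h2]
  apply mul_le_mul_of_nonneg_left _ (by positivity)
  push_cast
  refine le_min ?_ ?_
  · have h3 : 2 / 3 * min ((m k : ℝ) / ((k : ℝ) + 1) ^ 2) (1 / ((k : ℝ) + 1)) ≤ 2 / 3 * ((m k : ℝ) / ((k : ℝ) + 1) ^ 2) :=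
      mul_le_mul_of_nonneg_left (min_le_left _ _) (by norm_num)
    refine h3.trans ?_
    rw [mul_div_assoc', div_le_div_iff₀ (by positivity) (by positivity)]
    have h4 : 2 / 3 * ((k : ℝ) + 1 + 1) ^ 2 ≤ ((k : ℝ) + 1) ^ 2 := by nlinarith
    have h5 := mul_le_mul_of_nonneg_left h4 hm0
    have h6 := mul_le_mul_of_nonneg_right h1 (by positivity : (0 : ℝ) ≤ ((k : ℝ) + 1) ^ 2)
    linarith
  · have h3 : 2 / 3 * min ((m k : ℝ) / ((k : ℝ) + 1) ^ 2) (1 / ((k : ℝ) + 1)) ≤ 2 / 3 * (1 / ((k : ℝ) + 1)) :=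
      mul_le_mul_of_nonneg_left (min_le_right _ _) (by norm_num)
    refine h3.trans ?_
    rw [mul_one_div, div_le_div_iff₀ (by positivity) (by positivity)]
    linarith

/-- (3b) -/
theorem phase_neg (H : Jobs) {d : ℕ → ℝ} (hd : Monotone d) (hd0 : ∀ k, 0 ≤ d k) {m : ℕ → ℕ} (hm : Monotone m)
    (hm1 : ∀ k, 1 ≤ m k) (hm4 : ∀ k, 8 ≤ k → 4 * m k ≤ 2 ^ k)
    (hs : ¬ Summable (fun k => d k / cost k (m k))) : SomeSet d (fun S => ∃ᶠ k in atTop, m k ≤ zero S k) := by
  classical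
  obtain ⟨hsz, C, hC0, hC1, hC⟩ := H.size
  obtain ⟨w, hw⟩ : ∃ w : ℕ → ℝ, w = fun k => (88 + 14 * C) * cw k (m k) := ⟨_, rfl⟩
  have hw0 : ∀ k, 0 < w k := by
    intro k
    rw [hw]
    have := cw_pos (k := k) (hm1 k)
    dsimp only
    positivity
  have hns : ¬ Summable (fun k => d k / w k) := by
    intro h
    apply hs
    refine Summable.of_norm_bounded_eventually_nat (h.mul_left (88 + 14 * C)) ?_
    filter_upwards [eventually_ge_atTop 1] with k hk
    have h1 := cost_pos (k := k) (m := m k) hk (hm1 k)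
    rw [Real.norm_eq_abs, abs_of_nonneg (div_nonneg (hd0 k) h1.le), hw]
    have h2 := cw_pos (k := k) (hm1 k)
    have h3 := cw_le_cost (k := k) (m := m k) hk
    have h4 : (88 + 14 * C) * (d k / ((88 + 14 * C) * cw k (m k))) = d k / cw k (m k) := by
      field_simp
    rw [h4]
    exact div_le_div_of_nonneg_left (hd0 k) h2 h3
  obtain ⟨q, hq, hqns, hqd, hqM⟩ := choose_q hd hd0 hw0 4 (fun k hk => by
    rw [hw]
    dsimp only
    have := cw_grow hm hk
    have h2 : (0 : ℝ) ≤ 88 + 14 * C := by positivity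
    have h3 := mul_le_mul_of_nonneg_left this h2
    linarith) hns 116 (by norm_num)
  -- splitting into the types
  obtain ⟨r, hr⟩ : ∃ r : (ℕ → Prop) → ℕ → ℝ, r = fun P k => if P k then q k else 0 := ⟨_, rfl⟩
  have hr01 : ∀ P k, 0 ≤ r P k ∧ r P k ≤ 1 := by
    intro P k
    rw [hr]
    dsimp only
    split_ifs
    · exact hq k
    · exact ⟨le_rfl, zero_le_one⟩
  have hrq : ∀ P k, r P k ≠ 0 → P k ∧ r P k = q k := by
    intro P k h
    rw [hr] at h ⊢
    dsimp only at h ⊢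
    by_cases hP : P k
    · exact ⟨hP, if_pos hP⟩
    · exact absurd (if_neg hP) h
  have hrd : ∀ P k, ∑ j ∈ range (k + 1), r P j * w j ≤ d k := by
    intro P k
    refine (sum_le_sum (fun j _ => ?_)).trans (hqd k)
    apply mul_le_mul_of_nonneg_right _ (hw0 j).le
    rw [hr]
    dsimp only
    split_ifs
    · exact le_rfl
    · exact (hq j).1
  by_cases hA : Summable (r (fun k => 8 ≤ k ∧ m k ≤ k + 1))
  · by_cases hB : Summable (r (fun k => 8 ≤ k ∧ k + 1 < m k ∧ k % 2 = 0))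
    · have hD : ¬ Summable (r (fun k => 8 ≤ k ∧ k + 1 < m k ∧ k % 2 = 1)) := by
        intro hD
        apply hqns
        refine Summable.of_norm_bounded_eventually_nat ((hA.add hB).add hD) ?_
        filter_upwards [eventually_ge_atTop 8] with k hk
        rw [Real.norm_eq_abs, abs_of_nonneg (hq k).1]
        have h1 := (hr01 (fun k => 8 ≤ k ∧ m k ≤ k + 1) k).1
        have h2 := (hr01 (fun k => 8 ≤ k ∧ k + 1 < m k ∧ k % 2 = 0) k).1
        have h3 := (hr01 (fun k => 8 ≤ k ∧ k + 1 < m k ∧ k % 2 = 1) k).1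
        rcases Nat.lt_or_ge (k + 1) (m k) with h4 | h4
        · rcases Nat.mod_two_eq_zero_or_one k with h5 | h5
          · have h6 : r (fun k => 8 ≤ k ∧ k + 1 < m k ∧ k % 2 = 0) k = q k := by
              rw [hr]
              exact if_pos ⟨hk, h4, h5⟩
            linarith
          · have h6 : r (fun k => 8 ≤ k ∧ k + 1 < m k ∧ k % 2 = 1) k = q k := by
              rw [hr]
              exact if_pos ⟨hk, h4, h5⟩
            linarith
        · have h6 : r (fun k => 8 ≤ k ∧ m k ≤ k + 1) k = q k := by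
            rw [hr]
            exact if_pos ⟨hk, h4⟩
          linarith
      obtain ⟨Ω, mΩ, μ, hμ, A, hA1, hA2, hA3⟩ := some_large H m hm4 1 _ (hr01 _) (C := 88 + 14 * C) (by linarith) (fun k hk => by
        obtain ⟨h1, h2⟩ := hrq _ k hk
        refine ⟨h1.1, h1.2.2, ?_⟩
        rw [h2, ← cw_large h1.2.1]
        have h3 := hqM k (by rw [← h2]; exact hk)
        rw [hw] at h3
        exact h3) hD
      refine ⟨Ω, mΩ, μ, hμ, A, hA1, fun k => (hA2 k).trans ((sum_le_sum (fun j _ => ?_)).trans (hrd (fun k => 8 ≤ k ∧ k + 1 < m k ∧ k % 2 = 1) k)), hA3⟩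
      by_cases hj : r (fun k => 8 ≤ k ∧ k + 1 < m k ∧ k % 2 = 1) j = 0
      · rw [hj, zero_mul, zero_mul]
      · rw [hw]
        dsimp only
        rw [cw_large (hrq _ j hj).1.2.1]
    · obtain ⟨Ω, mΩ, μ, hμ, A, hA1, hA2, hA3⟩ := some_large H m hm4 0 _ (hr01 _) (C := 88 + 14 * C) (by linarith) (fun k hk => by
        obtain ⟨h1, h2⟩ := hrq _ k hk
        refine ⟨h1.1, h1.2.2, ?_⟩
        rw [h2, ← cw_large h1.2.1]
        have h3 := hqM k (by rw [← h2]; exact hk)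
        rw [hw] at h3
        exact h3) hB
      refine ⟨Ω, mΩ, μ, hμ, A, hA1, fun k => (hA2 k).trans ((sum_le_sum (fun j _ => ?_)).trans (hrd (fun k => 8 ≤ k ∧ k + 1 < m k ∧ k % 2 = 0) k)), hA3⟩
      by_cases hj : r (fun k => 8 ≤ k ∧ k + 1 < m k ∧ k % 2 = 0) j = 0
      · rw [hj, zero_mul, zero_mul]
      · rw [hw]
        dsimp only
        rw [cw_large (hrq _ j hj).1.2.1]
  · obtain ⟨Ω, mΩ, μ, hμ, A, hA1, hA2, hA3⟩ := some_small H hC0 hC m hm1 hm4 _ (hr01 _) (fun k hk => (hrq _ k hk).1) hA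
    refine ⟨Ω, mΩ, μ, hμ, A, hA1, fun k => (hA2 k).trans ((sum_le_sum (fun j _ => ?_)).trans (hrd (fun k => 8 ≤ k ∧ m k ≤ k + 1) k)), hA3⟩
    by_cases hj : r (fun k => 8 ≤ k ∧ m k ≤ k + 1) j = 0
    · rw [hj, zero_mul, zero_mul]
    · rw [hw]
      dsimp only
      rw [cw_small (hrq _ j hj).1.2]

end Pool.Agent.Q120.GE
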