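import Pool.Agent.Q120.ET.Law
import Pool.Agent.Q120.GM.Exists
import Pool.Agent.Q120.GM.Indep
import Pool.Agent.Q112.LE.Expo

/-!
# Project GE: how far may the law of the primes be from Cramér's model for Goldbach's problem?

`rep S n` is the number of ordered representations `n = a + b`, `a, b ∈ S`, `a, b ≥ 3`. `A` is ANY random set of
integers, `D_k` the relative entropy (nats) of the law of `A ∩ [3, 2 ^ (k + 1))` with respect to Cramér's model
(`n` in the set independently with probability `1 / log n`). Results of the project (proved from the jobs below):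

(1) the least `D_k` which allows `m` even `n` in `[2 ^ k, 2 ^ (k + 1))` without representation is of the exact order
`2 ^ k * min (m / k ^ 2) (1 / k)`;
(2) for nondecreasing `d`: all `A` with `D_k ≤ d k` satisfy almost surely `rep n ~ n / log ^ 2 n` (or only
`rep n ≥ δ n / log ^ 2 n`, or only `rep n > 0` for all large even `n`) if and only if `∑ d k * k ^ 2 / 2 ^ k < ∞`.

Each job is a definition `J_… : Prop`; a theorem `t_… : J_…` is to be proved. The proofs are complete in the docstrings.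
Tools: `Pool.Agent.Q120.GM.Basic` (`IsModel`, `indep_real`, `F_all`, `F_none`, `real_all`, `harris`, `janson`),
`GM.Indep` (`indep_many`, `bc` = Borel-Cantelli with real numbers), `GM.Exists` (`isModel`), `Q112.LE.Expo` (`Mutual`,
`num`, `tail_up`, `tail_down`), `Q120.ET.Law` (`real_event`, `event_bound`, `tr`, `lawOn`, `relEntropy`).
-/

set_option autoImplicit false

namespace Pool.Agent.Q120.GE

open Finset MeasureTheory Filter Pool.Agent.Q120.ET Pool.Agent.Q120.GM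
open scoped Topology

open Classical in
/-- The number of ordered representations `n = a + b` with `a, b ∈ S`, `a, b ≥ 3`. -/
noncomputable def rep (S : Set ℕ) (n : ℕ) : ℕ :=
  ((range (n + 1)).filter (fun a => a ∈ S ∧ n - a ∈ S ∧ 3 ≤ a ∧ 3 ≤ n - a)).card

/-- The expected order of `rep`. -/
noncomputable def main (n : ℕ) : ℝ := n / Real.log n ^ 2

/-- The probabilities of Cramér's model. -/
noncomputable def pc (n : ℕ) : ℝ := if 3 ≤ n then 1 / Real.log n else 0

/-- The integers `≥ 3` below `2 ^ k`. -/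
def low (k : ℕ) : Finset ℕ := Ico 3 (2 ^ k)

/-- The integers `≥ 3` of the dyadic block. -/
def blk (k : ℕ) : Finset ℕ := Ico (max 3 (2 ^ k)) (2 ^ (k + 1))

open Classical in
/-- The number of the `n` in the block which have at most `c n / (log n) ^ 2` representations. -/
noncomputable def exc (c : ℝ) (S : Set ℕ) (k : ℕ) : ℕ :=
  ((Ico (2 ^ k) (2 ^ (k + 1))).filter (fun n => (rep S n : ℝ) ≤ c * main n)).card

open Classical in
/-- The number of the even `n` in the block without representation. -/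
noncomputable def zero (S : Set ℕ) (k : ℕ) : ℕ :=
  ((Ico (2 ^ k) (2 ^ (k + 1))).filter (fun n => Even n ∧ rep S n = 0)).card

/-- The exact order of the relative entropy which allows `m` exceptions. -/
noncomputable def cost (k m : ℕ) : ℝ := 2 ^ k * min ((m : ℝ) / k ^ 2) (1 / k)

/-! ## Part A: Cramér's model -/

/-- **Job LAW.** In a model with independent elements the law on a finite set is the product.
Proof. The event is the intersection of the events `n ∈ A` (`n ∈ T`) and `n ∉ A` (`n ∈ B \ T`). Induction on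
`B \ T` (or `Finset.induction_on` for `B`), with `indep_real` for the disjoint sets `{n}` and the rest; the event of
`n` is measurable for `F A {n}`. For the second statement `1 / log n = pc n` for `n ≥ 3`. -/
def J_LAW : Prop := ∀ (Ω : Type) [MeasurableSpace Ω] (μ : Measure Ω) [IsProbabilityMeasure μ] (A : Ω → Set ℕ),
  (∀ p : ℕ → ℝ, IsModel μ p A → ∀ B T : Finset ℕ, T ⊆ B →
    lawOn μ A B T = (∏ n ∈ T, p n) * ∏ n ∈ B \ T, (1 - p n)) ∧
  (IsModel μ pc A → ∀ B T : Finset ℕ, (∀ n ∈ B, 3 ≤ n) → T ⊆ B → lawOn μ A B T = cramerOn B T)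

/-- **Job MOM.** The expected number of representations.
Proof. Lower bound: for `3 ≤ a ≤ n - 3` both factors are at least `1 / log n`; so the sum is at least
`(n - 5) / log ^ 2 n`. Upper bound: let `y = n / log ^ 3 n`. The terms with `a < y` or `n - a < y` contribute at most
`2 (y + 1)` (all `pc` are at most `1`, as `log 3 > 1`), which is `o (n / log ^ 2 n)`; the others at most
`(n + 1) / (log n - 3 log log n) ^ 2`, and `(log n - 3 log log n) / log n → 1`. -/
def J_MOM : Prop := Tendsto (fun n : ℕ => (∑ a ∈ range (n + 1), pc a * pc (n - a)) / main n) atTop (𝓝 1)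

/-- **Job DEV** (uses MOM as a hypothesis). Deviations for one `n`.
Proof. `rep (A ω) n = 2 X + δ` where `X` is the number of `a` with `3 ≤ a`, `2 a < n` and `a, n - a ∈ A` and
`δ ∈ {0, 1}` (the pair `a = n / 2`). `X = num J G` with `J = {a : 3 ≤ a, 2 a < n}` and `G a = all A {a, n - a}`; these
events are `Mutual` by `indep_many` (the sets `{a, n - a}` are disjoint). `M = ∑ μ.real (G a) = ∑ pc a * pc (n - a)`
over `J`, and `2 M + (≤ 1)` is the sum of MOM, so `2 M / main n → 1`. For large `n` the event is contained in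
`|X - M| ≥ κ M`, `κ = ε / 2`. With `l = κ / 2 ≤ 1`: `tail_up` gives `exp ((e^l - 1) M - l (1 + κ) M)` and
`e^l - 1 ≤ l + l ^ 2`, so at most `exp (-κ ^ 2 M / 4)`; `tail_down` with `l = κ` gives `exp (-κ ^ 2 M / 2)`
(`e^(-l) - 1 ≤ -l + l ^ 2 / 2`). The sum of the two is at most `exp (-c main n)` for large `n`. -/
def J_DEV : Prop := J_MOM → ∀ ε : ℝ, 0 < ε → ε ≤ 1 → ∃ c : ℝ, 0 < c ∧ ∀ᶠ n : ℕ in atTop,
  ∀ (Ω : Type) [MeasurableSpace Ω] (μ : Measure Ω) [IsProbabilityMeasure μ] (A : Ω → Set ℕ), IsModel μ pc A →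
    μ.real {ω | ε * main n ≤ |(rep (A ω) n : ℝ) - main n|} ≤ Real.exp (-(c * main n))

open Classical in
/-- **Job THIN.** Janson's inequality for the lower tail.
Let `X ω` be the number of `j ∈ J` with `U j ⊆ A ω`.
Proof (same as `Pool.Agent.Q120.GM.janson`, with weights). Let `Φ J = E 2^(-X_J)`; claim
`Φ J ≤ exp (-P/2 + S/4)`, `P = ∑ j, P_j`, `S` the double sum; then `μ (X ≤ s) ≤ 2 ^ s Φ J` by Markov.
Induction: `Φ (J ∪ i) = Φ J - (1/2) E (2^(-X_J) 1_i)`, `1_i` the indicator of `all A (U i)`. Let `J1` be the `j ∈ J` with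
`U j` disjoint from `U i`, `J2` the others. `2^(-x) ≥ 1 - x / 2` for `x ∈ ℕ`, so
`E (2^(-X_J) 1_i) ≥ E (2^(-X_J1) 1_i) - (1/2) ∑ j ∈ J2, E (2^(-X_J1) 1_i 1_j) ≥ (P_i - s_i / 2) Φ J1` with
`s_i = ∑ j ∈ J2, ∏ x ∈ U i ∪ U j, p x`: independence for the first term (`indep_real` or its version for the finitely
many values), and Harris for the others: `E (2^(-X_J1) 1_(all A T)) ≤ P (all A T) Φ J1` because on `all A T` the
variable `2^(-X_J1)` is at most the same variable for the sets `U j \ T`... (replace `U j` by `U j \ T`: on `all A T`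
both counts agree, the new count is independent of `all A T` and pointwise at least `X_J1`). As `Φ J1 ≥ Φ J`:
`Φ (J ∪ i) ≤ Φ J (1 - (P_i - s_i / 2) / 2)` if `P_i ≥ s_i / 2`, and `Φ (J ∪ i) ≤ Φ J` always; so
`Φ (J ∪ i) ≤ Φ J exp (-P_i / 2 + s_i / 4)`. Expectations can be written as sums over the values
(`∑ T ∈ J.powerset, 2^(-|T|) μ.real (…)`) or as Bochner integrals of bounded simple functions. -/
def J_THIN : Prop := ∀ (Ω : Type) [MeasurableSpace Ω] (μ : Measure Ω) [IsProbabilityMeasure μ] (p : ℕ → ℝ) (A : Ω → Set ℕ),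
  IsModel μ p A → ∀ (J : Finset (ℕ × ℕ)) (U : ℕ × ℕ → Finset ℕ) (s : ℕ),
    μ.real {ω | (J.filter (fun j => ∀ i ∈ U j, i ∈ A ω)).card ≤ s} ≤
      2 ^ s * Real.exp (-(∑ j ∈ J, ∏ i ∈ U j, p i) / 2 +
        (∑ j ∈ J, ∑ l ∈ J with l ≠ j ∧ ¬ Disjoint (U l) (U j), ∏ i ∈ U l ∪ U j, p i) / 4)

/-- **Job JAN** (uses THIN as a hypothesis). Many `n` at once.
Proof. Let `m = |T|` (the case `m = 0` is trivial, as `μ.real ≤ 1`). `J` = the pairs `(n, a)` with `n ∈ T`,
`2 ^ (k - 2) ≤ a`, `2 a < n`, and `U (n, a) = {a, n - a}` (two different elements of `[2 ^ (k-2), 2 ^ (k+1))`). For every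
`n ∈ T` there are at least `2 ^ (k - 3)` such `a`; so `|J| ≥ m 2 ^ (k - 3)`. For `k ≥ 12` the numbers `x` of
`[2 ^ (k-2), 2 ^ (k+1))` have `1 / k ≤ pc x ≤ 2 / k` (`0.693 < log 2 < 0.6932`). So `P ≥ |J| / k ^ 2`. Double sum: for
given `(n, a)` there are at most `4 m` pairs `(n', a')` with an element in common (`x ∈ {a, n - a}` is `a'` or `n' - a'`),
and then the union has exactly three elements (if it had two, the pairs would be equal), so each term is at most
`8 / k ^ 3`; the double sum is at most `32 m |J| / k ^ 3 ≤ |J| / (2 k ^ 2)` as `m ≤ k / 100`. If all `n ∈ T` satisfy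
`rep n ≤ (1/100) n / log ^ 2 n` then the number `X` of the `j ∈ J` with `U j ⊆ A` is at most
`(1/2) ∑ rep n ≤ (1/2) m (1/100) 2 ^ (k+1) / (k log 2) ^ 2 ≤ (21/1000) m 2 ^ k / k ^ 2` (each `{a, n-a}` gives two ordered
representations). Let `s` be the integer part of the last number; THIN gives
`2 ^ s exp (-(1/2) |J| / k ^ 2 + (1/8) |J| / k ^ 2) ≤ exp (0.7 * 0.021 m 2 ^ k / k ^ 2 - (3/64) m 2 ^ k / k ^ 2)` and
`3/64 - 0.0147 ≥ 1/100`. (With `x log 2 ≤ 0.7 x`.) -/
def J_JAN : Prop := J_THIN → ∀ (Ω : Type) [MeasurableSpace Ω] (μ : Measure Ω) [IsProbabilityMeasure μ] (A : Ω → Set ℕ),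
  IsModel μ pc A → ∀ k : ℕ, 12 ≤ k → ∀ T : Finset ℕ, T ⊆ Ico (2 ^ k) (2 ^ (k + 1)) → (T.card : ℝ) ≤ k / 100 →
    μ.real {ω | ∀ n ∈ T, (rep (A ω) n : ℝ) ≤ 1 / 100 * main n} ≤ Real.exp (-(1 / 100 * (T.card * 2 ^ k / k ^ 2)))

/-- **Job EXC** (uses the conclusion of JAN as a hypothesis). The number of exceptions.
Proof. Let `m' = min m ⌊k / 100⌋`. If `m ≤ exc` then some `T ⊆ Ico (2 ^ k) (2 ^ (k + 1))` with `|T| = m'` consists of
exceptions; there are at most `(2 ^ k) ^ m'` such `T` (`Finset.card_powersetCard`, `Nat.choose_le_pow`…), so the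
probability is at most `exp (m' k log 2 - m' 2 ^ k / (100 k ^ 2)) ≤ exp (-m' 2 ^ k / (200 k ^ 2))` if
`2 ^ k ≥ 200 k ^ 3`. Finally `m' ≥ min m (k / 200)` for `k ≥ 200`, so `m' / k ^ 2 ≥ (1/200) min (m / k ^ 2) (1 / k)`. -/
def J_EXC : Prop := (∀ (Ω : Type) [MeasurableSpace Ω] (μ : Measure Ω) [IsProbabilityMeasure μ] (A : Ω → Set ℕ),
  IsModel μ pc A → ∀ k : ℕ, 12 ≤ k → ∀ T : Finset ℕ, T ⊆ Ico (2 ^ k) (2 ^ (k + 1)) → (T.card : ℝ) ≤ k / 100 →
    μ.real {ω | ∀ n ∈ T, (rep (A ω) n : ℝ) ≤ 1 / 100 * main n} ≤ Real.exp (-(1 / 100 * (T.card * 2 ^ k / k ^ 2)))) →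
  ∃ K₀ : ℕ, 200 ≤ K₀ ∧ ∀ k : ℕ, K₀ ≤ k → ∀ (Ω : Type) [MeasurableSpace Ω] (μ : Measure Ω) [IsProbabilityMeasure μ]
    (A : Ω → Set ℕ), IsModel μ pc A → ∀ m : ℕ, 1 ≤ m →
      μ.real {ω | m ≤ exc (1 / 100) (A ω) k} ≤ Real.exp (-(cost k m / 40000))

/-! ## Part B: random sets with bounded relative entropy -/

/-- **Job ENT.** An event which depends on `A ∩ [3, 2 ^ (k + 1))` and has probability at most `exp (-u)` in Cramér's model
has probability at most `(1 + D) / u`.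
Proof. The model exists (`isModel`, `0 ≤ pc ≤ 1` as `log 3 > 1`). By LAW and `real_event` the sum
`∑ T ∈ B.powerset with F T, cramerOn B T` is the probability in the model of `F (tr A B)`, `B = low (k + 1)`; now
`event_bound` with this `u` and `q = exp (-u)`: `(D + exp u * exp (-u)) / u`. -/
def J_ENT : Prop := J_LAW → ∀ (k : ℕ) (F : Finset ℕ → Prop) [DecidablePred F] (u : ℝ), 0 < u →
  (∀ (Ω : Type) [MeasurableSpace Ω] (μ : Measure Ω) [IsProbabilityMeasure μ] (A : Ω → Set ℕ), IsModel μ pc A →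
    μ.real {ω | F (tr A (low (k + 1)) ω)} ≤ Real.exp (-u)) →
  ∀ (Ω : Type) [MeasurableSpace Ω] (μ : Measure Ω) [IsProbabilityMeasure μ] (A : Ω → Set ℕ), IsRandomSet A →
    μ.real {ω | F (tr A (low (k + 1)) ω)} ≤ (1 + relEntropy μ A (low (k + 1))) / u

/-- **Job SUM** (uses MOM, DEV, LAW, ENT as hypotheses). The asymptotic formula for all `n`.
Proof. Fix `ε ∈ (0, 1]`. Let `F k T` say that some `n ∈ Ico (2 ^ k) (2 ^ (k + 1))` has
`ε main n ≤ |rep (T : Set ℕ) n - main n|`; for such `n` `rep (A ω) n = rep (tr A (low (k+1)) ω) n` (the summands are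
`≥ 3` and `< 2 ^ (k + 1)`). By DEV and the union bound the probability of `F k` in the model is at most
`2 ^ k exp (-c 2 ^ k / ((k + 1) ^ 2)) ≤ exp (-c' 2 ^ k / k ^ 2)` for large `k` (`main n ≥ 2 ^ k / (k + 1) ^ 2`, as
`log n ≤ (k + 1) log 2`). By ENT the probability for `A` is at most `(1 + d k) k ^ 2 / (c' 2 ^ k)` for large `k`, which is
summable. Borel-Cantelli (`bc`), then the intersection over `ε = 1 / (j + 1)`. -/
def J_SUM : Prop := J_MOM → J_DEV → J_LAW → J_ENT → ∀ (Ω : Type) [MeasurableSpace Ω] (μ : Measure Ω) [IsProbabilityMeasure μ]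
  (A : Ω → Set ℕ), IsRandomSet A → ∀ d : ℕ → ℝ, (∀ᶠ k : ℕ in atTop, relEntropy μ A (low (k + 1)) ≤ d k) →
    Summable (fun k : ℕ => d k * k ^ 2 / 2 ^ k) →
      ∀ᵐ ω ∂μ, ∀ ε : ℝ, 0 < ε → ∀ᶠ n : ℕ in atTop, |(rep (A ω) n : ℝ) - main n| ≤ ε * main n

/-! ## Part C: constructions -/

/-- The construction: `R` is the basic set, `c` the set of the scales at which we interfere; then the elements of
`W k S`, `S` the part already constructed, are left out in the block `k`. -/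
noncomputable def step (W : ℕ → Finset ℕ → Finset ℕ) (R c : Set ℕ) : ℕ → Finset ℕ
  | 0 => ∅
  | k + 1 => by
    classical
    exact step W R c k ∪ (blk k).filter (fun n => n ∈ R ∧ ¬ (k ∈ c ∧ n ∈ W k (step W R c k)))

/-- The constructed set. -/
def del (W : ℕ → Finset ℕ → Finset ℕ) (R c : Set ℕ) : Set ℕ := {n | ∃ k, n ∈ step W R c k}

/-- The basic set and the scales. -/
def Rn (ω : Set (ℕ ⊕ ℕ)) : Set ℕ := {n | Sum.inl n ∈ ω}
def Cn (ω : Set (ℕ ⊕ ℕ)) : Set ℕ := {k | Sum.inr k ∈ ω}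

/-- The conditional law in one block, `B` the block and `W` the set which is left out with probability `q`. -/
noncomputable def rr (q : ℝ) (B W T : Finset ℕ) : ℝ :=
  (1 - q) * cramerOn B T + q * (if Disjoint T W then cramerOn (B \ W) T else 0)

/-- `-log (1 - 1 / log n)` -/
noncomputable def lam (n : ℕ) : ℝ := -Real.log (1 - 1 / Real.log n)

/-- **Job STEP.** Elementary properties of the construction.
Proof. `low k` and `blk k` are disjoint with union `low (k + 1)` (check `k = 0, 1` separately). `step k ⊆ low k` by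
induction, `step (k + 1) ∩ low k = step k`, so `del ∩ low k = step k` and for `n ∈ blk k`: `n ∈ del` iff `n ∈ R` and not
(`k ∈ c` and `n ∈ W k (step k)`). -/
def J_STEP : Prop := (∀ k : ℕ, low (k + 1) = low k ∪ blk k ∧ Disjoint (low k) (blk k)) ∧
  (∀ n : ℕ, 3 ≤ n → ∃ k, n ∈ blk k) ∧
  ∀ (W : ℕ → Finset ℕ → Finset ℕ) (R c : Set ℕ), (∀ n ∈ del W R c, 3 ≤ n ∧ n ∈ R) ∧ ∀ k : ℕ, step W R c k ⊆ low k ∧
    (∀ n ∈ low k, n ∈ del W R c ↔ n ∈ step W R c k) ∧
    ∀ n ∈ blk k, n ∈ del W R c ↔ (n ∈ R ∧ ¬ (k ∈ c ∧ n ∈ W k (step W R c k)))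

/-- **Job COND** (uses STEP and LAW as hypotheses). The law of the constructed set.
Let `X ω` be a random subset of `ℕ ⊕ ℕ` with independent elements, `inl n` with probability `pc n`, `inr k` with
probability `q k`.
Proof. Measurability: membership of `n` in `del` depends on finitely many coordinates (induction along `step`: for
every `T` the event `step k = T` is measurable for the `σ`-algebra `F X` of the `inl n`, `n < 2 ^ k`, and `inr j`,
`j < k`). For the formula: for `T ⊆ low (k + 1)` let `T₁ = T ∩ low k`, `T₂ = T ∩ blk k`. The event `del ∩ low (k+1) = T` is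
the intersection of `step k = T₁` and of the event that (if `inr k` is absent) `R ∩ blk k = T₂`, (if `inr k` is present)
`T₂` is disjoint from `W k T₁` and `R ∩ (blk k \ W k T₁) = T₂`. The second event depends only on the coordinates `inl n`,
`n ∈ blk k`, and `inr k`; independence (`indep_real`) and LAW give the product. -/
def J_COND : Prop := J_STEP → J_LAW → ∀ (Ω : Type) [MeasurableSpace Ω] (μ : Measure Ω) [IsProbabilityMeasure μ]
  (X : Ω → Set (ℕ ⊕ ℕ)) (q : ℕ → ℝ), (∀ k, 0 ≤ q k ∧ q k ≤ 1) → IsModel μ (Sum.elim pc q) X → ∀ W : ℕ → Finset ℕ → Finset ℕ,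
    IsRandomSet (fun ω => del W (Rn (X ω)) (Cn (X ω))) ∧ ∀ (k : ℕ) (T : Finset ℕ), T ⊆ low (k + 1) →
      lawOn μ (fun ω => del W (Rn (X ω)) (Cn (X ω))) (low (k + 1)) T =
        lawOn μ (fun ω => del W (Rn (X ω)) (Cn (X ω))) (low k) (T ∩ low k) * rr (q k) (blk k) (W k (T ∩ low k)) (T ∩ blk k)

/-- **Job ONE.** The relative entropy of one step.
Proof. `rr` is a probability on the subsets of `B` (`sum_cramerOn`, and `∑ T ⊆ B, T disjoint from W, cramerOn (B \ W) T = 1`).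
Let `Q = ∏ n ∈ W ∩ B, (1 - 1 / log n) = exp (-L)`, `L = ∑ n ∈ W ∩ B, lam n ≥ 0`. For `T` disjoint from `W`
`cramerOn (B \ W) T = cramerOn B T / Q`, so `rr = cramerOn B T * (1 - q + q / Q)` there, and `rr = (1 - q) cramerOn B T` for the
other `T`, where the logarithm is `≤ 0`. Hence the sum is at most `((1 - q) Q + q) log (1 + q (1 / Q - 1))`. If `q ≥ Q` this
is at most `2 q log (1 / Q) = 2 q L`; if `q < Q` it is at most `(Q + q) q / Q ≤ 2 q`. -/
def J_ONE : Prop := ∀ (B W : Finset ℕ) (q : ℝ), (∀ n ∈ B, 3 ≤ n) → 0 ≤ q → q ≤ 1 →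
  (∑ T ∈ B.powerset, rr q B W T = 1) ∧ (∀ T ∈ B.powerset, 0 ≤ rr q B W T) ∧
    ∑ T ∈ B.powerset, rr q B W T * Real.log (rr q B W T / cramerOn B T) ≤ 2 * q * (1 + ∑ n ∈ W ∩ B, lam n)

/-- **Job CHAIN** (uses ONE, and the formula of COND for one `k`, as hypotheses). The chain rule.
Proof. `T ↦ (T ∩ low k, T ∩ blk k)` is a bijection from the subsets of `low (k+1)` to the pairs (`low (k+1)` is the
disjoint union, STEP); `cramerOn (low (k+1)) T = cramerOn (low k) T₁ * cramerOn (blk k) T₂`. So with `P = lawOn (low k)`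
`relEntropy (low (k+1)) = ∑ T₁, ∑ T₂, P T₁ * rr T₂ * log ((P T₁ / cramerOn T₁) * (rr T₂ / cramerOn T₂))`; if `P T₁ = 0` or
`rr T₂ = 0` the term is `0`, otherwise the logarithm of the product is the sum of the logarithms; sum over `T₂` with
`∑ rr = 1` and ONE. -/
def J_CHAIN : Prop := J_STEP → J_ONE → ∀ (Ω : Type) [MeasurableSpace Ω] (μ : Measure Ω) [IsProbabilityMeasure μ]
  (A : Ω → Set ℕ) (k : ℕ) (q : ℝ) (W : Finset ℕ → Finset ℕ), IsRandomSet A → 0 ≤ q → q ≤ 1 →
    (∀ T : Finset ℕ, T ⊆ low (k + 1) →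
      lawOn μ A (low (k + 1)) T = lawOn μ A (low k) (T ∩ low k) * rr q (blk k) (W (T ∩ low k)) (T ∩ blk k)) →
    relEntropy μ A (low (k + 1)) ≤ relEntropy μ A (low k) +
      ∑ T ∈ (low k).powerset, lawOn μ A (low k) T * (2 * q * (1 + ∑ n ∈ W T ∩ blk k, lam n))

/-- **Job SIZE.** Elementary bounds.
Proof. (a) `lam n ≤ 7 / (k + 1)` for `n ∈ blk k`: for `k = 1` only `n = 3`, `lam 3 ≤ 3`; for `k ≥ 2` `1 / log n ≤ 1.4427 / k`
and `-log (1 - x) ≤ 3 x` for `0 ≤ x ≤ 0.73` (convexity, or `-log (1 - x) ≤ x + x ^ 2 / (2 (1 - x))`). (b) The sum over the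
dyadic blocks of `2 ^ j / (j log 2)`. (c) `∑ P (A ∩ low k = T) |T| = ∑ n ∈ low k, P (n ∈ A)` (`real_event`, exchange the sums),
and `P (n ∈ A) ≤ P (n ∈ R) = pc n`. -/
def J_SIZE : Prop := (∀ k : ℕ, ∀ n ∈ blk k, 0 ≤ lam n ∧ lam n ≤ 7 / (k + 1)) ∧
  ∃ C : ℝ, 0 < C ∧ (∀ k : ℕ, ∑ n ∈ low k, pc n ≤ C * 2 ^ k / (k + 1)) ∧
    ∀ (Ω : Type) [MeasurableSpace Ω] (μ : Measure Ω) [IsProbabilityMeasure μ] (A R : Ω → Set ℕ), IsRandomSet A → IsModel μ pc R →
      (∀ ω, A ω ⊆ R ω) → ∀ k : ℕ, ∑ T ∈ (low k).powerset, lawOn μ A (low k) T * T.card ≤ C * 2 ^ k / (k + 1)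

/-- **Job SEQ.** Choice of the probabilities.
Proof. Let `s j = (j + 1) ^ 2 / 2 ^ j`, `q 0 = min 1 (d 0 / C)`, `q j = min 1 ((d j - d (j - 1)) * s j / C)` for `j ≥ 1`. Then
`q j * (C * 2 ^ j / (j + 1) ^ 2) ≤ d j - d (j - 1)`, and the sum telescopes. Suppose that `q` is summable. Then `q j < 1` for
`j ≥ J`, so `∑ (d j - d (j - 1)) s j < ∞`. `s (j + 1) ≤ (3 / 4) s j` for `j ≥ 4`, so
`d (j+1) s (j+1) ≤ (3/4) d j s j + (d (j+1) - d j) s (j+1)`; summing over `j ≤ n` the partial sums of `d j s j` are bounded,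
so `d j s j` is summable, a contradiction. -/
def J_SEQ : Prop := ∀ (d : ℕ → ℝ) (C : ℝ), Monotone d → (∀ k, 0 ≤ d k) → 0 < C →
  ¬ Summable (fun k : ℕ => d k * (k + 1) ^ 2 / 2 ^ k) →
    ∃ q : ℕ → ℝ, (∀ k, 0 ≤ q k ∧ q k ≤ 1) ∧ ¬ Summable q ∧
      ∀ k : ℕ, ∑ j ∈ range (k + 1), q j * (C * 2 ^ j / (j + 1) ^ 2) ≤ d k

open Classical in
/-- The set left out for Goldbach's problem, at one scale: `n = 2 ^ (k + 1)` loses all representations. -/
noncomputable def Wa (k : ℕ) (S : Finset ℕ) : Finset ℕ := (blk k).filter (fun b => b = 2 ^ k ∨ 2 ^ (k + 1) - b ∈ S)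

open Classical in
/-- The set left out if the `m` numbers `2 ^ (K + 1) - 2 i`, `1 ≤ i ≤ m`, shall have no representation. -/
noncomputable def Wb (K m : ℕ) (k : ℕ) (S : Finset ℕ) : Finset ℕ :=
  if k = K then (blk K).filter (fun b => b = 2 ^ K ∨ ∃ i ∈ Icc 1 m, 2 ^ (K + 1) - 2 * i - b ∈ S)
  else if k + 1 = K then Ico (2 ^ K - 2 * m) (2 ^ K) else ∅

/-- **Job GA** (uses STEP). Combinatorics of the constructions.
Proof. (a) Let `a + b = 2 ^ (k + 1)`, `3 ≤ a ≤ b`, both in `del`. `2 ^ k ≤ b < 2 ^ (k + 1)`, so `b ∈ blk k`. `b = 2 ^ k` is left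
out; otherwise `a < 2 ^ k`, `a ∈ step k`, `b ∈ Wa`. The number of elements of `Wa k S` is at most `1 + |S|`.
(b) Let `t = 2 ^ (K + 1) - 2 i`, `1 ≤ i ≤ m`, `a + b = t`, `3 ≤ a ≤ b` in `del`. If `b ≥ 2 ^ K`: `b = 2 ^ K` is left out, and for
`b > 2 ^ K` `a = t - b < 2 ^ K`, `a ∈ step K`, `b ∈ Wb`. If `b < 2 ^ K` then `a ≥ 2 ^ K - 2 i + 1 > 2 ^ K - 2 m`, so
`a ∈ Ico (2 ^ K - 2 m) (2 ^ K)`, a subset of `blk (K - 1)` as `4 m ≤ 2 ^ K`, which was left out at the scale `K - 1`. The `m`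
numbers `t` are even, different, in `Ico (2 ^ K) (2 ^ (K + 1))`. For the number of elements of `Wb K m K S`: for given `i`
the map `b ↦ 2 ^ (K + 1) - 2 i - b` is injective where its value is not `0`. (c) If all elements are `1` modulo `3` then no `n` with
`n % 3 ≠ 2` is a sum; at least a quarter of the block is even with `n % 3 ≠ 2` (`n % 6 = 0` or `4`) for `k ≥ 6`. -/
def J_GA : Prop := J_STEP →
  (∀ (R c : Set ℕ) (k : ℕ), k ∈ c → rep (del Wa R c) (2 ^ (k + 1)) = 0) ∧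
  (∀ (k : ℕ) (S : Finset ℕ), (Wa k S).card ≤ 1 + S.card) ∧
  (∀ (R c : Set ℕ) (K m : ℕ), 2 ≤ K → 1 ≤ m → 4 * m ≤ 2 ^ K → K ∈ c → K - 1 ∈ c → m ≤ zero (del (Wb K m) R c) K) ∧
  (∀ (K m : ℕ) (S : Finset ℕ), 0 ∉ S → (Wb K m K S).card ≤ 1 + m * S.card) ∧
  (∀ (S : Set ℕ) (k : ℕ), 6 ≤ k → (∀ n ∈ S, 3 ≤ n → n % 3 = 1) → 2 ^ k ≤ 4 * zero S k)

end Pool.Agent.Q120.GE
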